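import Pool.Agent.Work.MP_376faf_co_lower.Periodic

/-! Counting good pairs. -/

set_option autoImplicit false

namespace Pool.Agent.Work.MP_376faf_co_lower

open scoped ENNReal

theorem rotate_back (L : List Pt) {a : ℕ} (ha : a < L.length) :
    (L.rotate a).rotate ((L.length - a) % L.length) = L := by
  rw [List.rotate_rotate]
  rcases Nat.eq_zero_or_pos a with h | h
  · subst h
    simp
  · rw [Nat.mod_eq_of_lt (by omega), Nat.add_sub_cancel' ha.le, List.rotate_length]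

theorem rr_rotate_le (L : List Pt) (a : ℕ) : rr L ≤ rr (L.rotate a) := by
  unfold rr
  refine Finset.card_le_card_of_injOn
    (fun i => (i + (L.length - a % L.length)) % L.length) ?_ ?_
  · intro i hi
    rw [Finset.mem_coe, mem_Ren] at hi
    have hn : 0 < L.length := by omega
    rw [Finset.mem_coe, mem_Ren, List.length_rotate]
    refine ⟨Nat.mod_lt _ hn, ?_⟩
    rw [List.rotate_rotate, ← List.rotate_mod]
    have : (a + (i + (L.length - a % L.length)) % L.length) % L.length = i := by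
      rw [Nat.add_mod_mod]
      have h1 := Nat.mod_lt a hn
      have h2 := Nat.mod_add_div a L.length
      have h3 : a + (i + (L.length - a % L.length)) = i + L.length * (a / L.length + 1) := by
        rw [mul_add, mul_one]
        omega
      rw [h3, Nat.add_mul_mod_self_left, Nat.mod_eq_of_lt hi.1]
    rw [this]
    exact hi.2
  · intro i hi j hj hij
    rw [Finset.mem_coe, mem_Ren] at hi hj
    simp only at hij
    have hn : 0 < L.length := by omega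
    have h1 := Nat.ModEq.add_right_cancel' (n := L.length) _ hij
    unfold Nat.ModEq at h1
    rwa [Nat.mod_eq_of_lt hi.1, Nat.mod_eq_of_lt hj.1] at h1

theorem rr_rotate {L : List Pt} {a : ℕ} (ha : a < L.length) : rr (L.rotate a) = rr L := by
  refine le_antisymm ?_ (rr_rotate_le L a)
  have := rr_rotate_le (L.rotate a) ((L.length - a) % L.length)
  rwa [rotate_back L ha] at this

/-- nonempty bridges with displacement v -/
abbrev SB (v : Pt) : Type := {l : List Pt // (Bridge l ∧ l ≠ []) ∧ l.sum = v}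

noncomputable def Wt (x : ℝ≥0∞) (v : Pt) : ℝ≥0∞ :=
  ∑' l : SB v, x ^ l.1.length * ((rr l.1 : ℕ) : ℝ≥0∞)⁻¹

theorem tsum_Wt {x : ℝ≥0∞} (h : mass x Half = ⊤) : ∑' v, Wt x v = ⊤ := by
  rw [← top_le_iff, ← weighted_top h]
  unfold Wt
  exact sigma_ge (fun v : Pt => fun l => (Bridge l ∧ l ≠ []) ∧ l.sum = v)
    (fun l => Bridge l ∧ l ≠ []) (fun l hl => ⟨l.sum, hl, rfl⟩)
    (fun l => x ^ l.length * ((rr l : ℕ) : ℝ≥0∞)⁻¹)

theorem Wt_zero {x : ℝ≥0∞} {v : Pt} (hv : v.1 ≤ 0) : Wt x v = 0 := by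
  unfold Wt
  have : IsEmpty (SB v) := ⟨fun l => by
    have := l.2.1.1.pos_fst l.2.1.2
    rw [l.2.2] at this
    omega⟩
  simp

abbrev GP (v : Pt) : Type := {q : List Pt × List Pt // Good v q.1 q.2}

abbrev RotPair (v : Pt) (p : SB v × SB v) : Type := {ab : ℕ × ℕ // ab.1 < p.1.1.length ∧
  ab.2 < p.2.1.length ∧ Good v (p.1.1.rotate ab.1) (p.2.1.rotate ab.2)}

theorem rotPair_ge {v : Pt} (hv : 0 < v.1) (p : SB v × SB v) (c : ℝ≥0∞) :
    (v.1.toNat : ℝ≥0∞) * c ≤ ∑' _ : RotPair v p, c := by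
  choose a ha b hb hg hd using fun h : ℤ =>
    exists_good p.1.2.1.1 p.2.2.1.1 p.1.2.1.2 p.2.2.1.2 p.1.2.2 p.2.2.2 h
  have h1 : ∑' _ : Fin v.1.toNat, c = (v.1.toNat : ℝ≥0∞) * c := by
    rw [tsum_fintype, Finset.sum_const, Finset.card_univ, Fintype.card_fin, nsmul_eq_mul]
  rw [← h1]
  refine tsum_le_inj (fun h : Fin v.1.toNat =>
    (⟨(a (h.val : ℤ), b (h.val : ℤ)), ha _, hb _, hg _⟩ : RotPair v p)) ?_ (fun _ => le_rfl)
  intro h h' hh
  have e := congrArg (fun t : RotPair v p => t.1) hh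
  simp only [Prod.mk.injEq] at e
  have d1 := hd (h.val : ℤ)
  have d2 := hd (h'.val : ℤ)
  rw [e.1, e.2] at d1
  have d3 := dvd_sub d1 d2
  rw [sub_sub_sub_cancel_right] at d3
  have l1 := h.is_lt
  have l2 := h'.is_lt
  have : (h.val : ℤ) - h'.val = 0 := Int.eq_zero_of_abs_lt_dvd d3 (by
    rw [abs_lt]; constructor <;> omega)
  exact Fin.ext (by omega)

abbrev RenPair (v : Pt) (q : GP v) : Type := {ab : ℕ × ℕ // ab.1 ∈ Ren q.1.1 ∧ ab.2 ∈ Ren q.1.2}

theorem renPair_le {v : Pt} (q : GP v) (c : ℝ≥0∞) :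
    ∑' _ : RenPair v q, c * (((rr q.1.1 : ℕ) : ℝ≥0∞)⁻¹ * ((rr q.1.2 : ℕ) : ℝ≥0∞)⁻¹) ≤ c := by
  have h1 : ∑' _ : RenPair v q, c * (((rr q.1.1 : ℕ) : ℝ≥0∞)⁻¹ * ((rr q.1.2 : ℕ) : ℝ≥0∞)⁻¹) ≤
      ∑' _ : {x // x ∈ (Ren q.1.1 ×ˢ Ren q.1.2)},
        c * (((rr q.1.1 : ℕ) : ℝ≥0∞)⁻¹ * ((rr q.1.2 : ℕ) : ℝ≥0∞)⁻¹) := by
    refine tsum_le_inj (fun ab : RenPair v q => ⟨ab.1, Finset.mem_product.2 ab.2⟩) ?_
      (fun _ => le_rfl)
    intro a b hab
    exact Subtype.ext (congrArg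
      (fun t : {x // x ∈ (Ren q.1.1 ×ˢ Ren q.1.2)} => t.1) hab)
  refine h1.trans ?_
  rw [tsum_fintype, Finset.sum_const, Finset.card_univ, Fintype.card_coe, Finset.card_product,
    nsmul_eq_mul]
  have e : ∀ L : List Pt, ((rr L : ℕ) : ℝ≥0∞) * ((rr L : ℕ) : ℝ≥0∞)⁻¹ ≤ 1 :=
    fun L => ENNReal.mul_inv_le_one _
  calc (((Ren q.1.1).card * (Ren q.1.2).card : ℕ) : ℝ≥0∞) *
        (c * (((rr q.1.1 : ℕ) : ℝ≥0∞)⁻¹ * ((rr q.1.2 : ℕ) : ℝ≥0∞)⁻¹))
      = c * (((rr q.1.1 : ℕ) : ℝ≥0∞) * ((rr q.1.1 : ℕ) : ℝ≥0∞)⁻¹) *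
        (((rr q.1.2 : ℕ) : ℝ≥0∞) * ((rr q.1.2 : ℕ) : ℝ≥0∞)⁻¹) := by
        unfold rr; push_cast; ring
    _ ≤ c * 1 * 1 := mul_le_mul' (mul_le_mul' le_rfl (e _)) (e _)
    _ = c := by ring

theorem good_count (x : ℝ≥0∞) {v : Pt} (hv : 0 < v.1) :
    (v.1.toNat : ℝ≥0∞) * (Wt x v * Wt x v) ≤
      ∑' q : GP v, x ^ (q.1.1.length + q.1.2.length) := by
  set w1 : SB v × SB v → ℝ≥0∞ := fun p => (x ^ p.1.1.length * ((rr p.1.1 : ℕ) : ℝ≥0∞)⁻¹) *
    (x ^ p.2.1.length * ((rr p.2.1 : ℕ) : ℝ≥0∞)⁻¹) with hw1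
  set w2 : GP v → ℝ≥0∞ := fun q => x ^ (q.1.1.length + q.1.2.length) *
    (((rr q.1.1 : ℕ) : ℝ≥0∞)⁻¹ * ((rr q.1.2 : ℕ) : ℝ≥0∞)⁻¹) with hw2
  calc (v.1.toNat : ℝ≥0∞) * (Wt x v * Wt x v)
      = ∑' p : SB v × SB v, (v.1.toNat : ℝ≥0∞) * w1 p := by
        rw [ENNReal.tsum_mul_left]
        unfold Wt
        rw [← tsum_mul]
    _ ≤ ∑' p : SB v × SB v, ∑' _ : RotPair v p, w1 p :=
        ENNReal.tsum_le_tsum (fun p => rotPair_ge hv p (w1 p))
    _ = ∑' t : Σ p, RotPair v p, w1 t.1 := by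
        rw [ENNReal.tsum_sigma' (f := fun t : Σ p, RotPair v p => w1 t.1)]
    _ ≤ ∑' t : Σ q, RenPair v q, w2 t.1 := by
        refine tsum_le_inj (fun t : Σ p, RotPair v p =>
          (⟨⟨(t.1.1.1.rotate t.2.1.1, t.1.2.1.rotate t.2.1.2), t.2.2.2.2⟩,
            ⟨((t.1.1.1.length - t.2.1.1) % t.1.1.1.length,
              (t.1.2.1.length - t.2.1.2) % t.1.2.1.length), ?_, ?_⟩⟩ : Σ q, RenPair v q)) ?_ ?_
        · rw [mem_Ren, List.length_rotate, rotate_back _ t.2.2.1]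
          exact ⟨Nat.mod_lt _ (List.length_pos_iff.2 t.1.1.2.1.2), t.1.1.2.1.1⟩
        · rw [mem_Ren, List.length_rotate, rotate_back _ t.2.2.2.1]
          exact ⟨Nat.mod_lt _ (List.length_pos_iff.2 t.1.2.2.1.2), t.1.2.2.1.1⟩
        · rintro ⟨⟨⟨ω, h1⟩, ⟨η, h2⟩⟩, ⟨⟨a, b⟩, ha, hb, hg⟩⟩ ⟨⟨⟨ω', h1'⟩, ⟨η', h2'⟩⟩,
            ⟨⟨a', b'⟩, ha', hb', hg'⟩⟩ hab
          simp only at ha hb ha' hb' hg hg'
          have e1 := congrArg (fun t : Σ q, RenPair v q => t.1.1) hab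
          have e2 := congrArg (fun t : Σ q, RenPair v q => t.2.1) hab
          simp only [Prod.mk.injEq] at e1 e2
          have key : ∀ {ω ω' : List Pt} {a a' : ℕ}, a < ω.length → a' < ω'.length →
              ω.rotate a = ω'.rotate a' → (ω.length - a) % ω.length = (ω'.length - a') % ω'.length →
              ω = ω' ∧ a = a' := by
            intro ω ω' a a' ha ha' h3 h4
            have h5 : ω = ω' := by
              rw [← rotate_back ω ha, ← rotate_back ω' ha', h3, h4]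
            subst h5
            refine ⟨rfl, ?_⟩
            rcases Nat.eq_zero_or_pos a with h6 | h6 <;> rcases Nat.eq_zero_or_pos a' with h7 | h7
            · omega
            · rw [h6, Nat.sub_zero, Nat.mod_self, Nat.mod_eq_of_lt (by omega)] at h4; omega
            · rw [h7, Nat.sub_zero, Nat.mod_self, Nat.mod_eq_of_lt (by omega)] at h4; omega
            · rw [Nat.mod_eq_of_lt (by omega), Nat.mod_eq_of_lt (by omega)] at h4; omega
          obtain ⟨r1, r2⟩ := key ha ha' e1.1 e2.1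
          obtain ⟨r3, r4⟩ := key hb hb' e1.2 e2.2
          subst r1 r2 r3 r4
          rfl
        · intro t
          simp only [hw1, hw2, List.length_rotate]
          rw [rr_rotate t.2.2.1, rr_rotate t.2.2.2.1, pow_add]
          apply le_of_eq
          ring
    _ = ∑' q : GP v, ∑' _ : RenPair v q, w2 q := by
        rw [ENNReal.tsum_sigma' (f := fun t : Σ q, RenPair v q => w2 t.1)]
    _ ≤ ∑' q : GP v, x ^ (q.1.1.length + q.1.2.length) :=
        ENNReal.tsum_le_tsum (fun q => renPair_le q _)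

end Pool.Agent.Work.MP_376faf_co_lower
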