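import Pool.Agent.Work.MP_376faf_co_lower.Tail

/-! Consequences for individual terms and for the exponent. -/

set_option autoImplicit false

namespace Pool.Agent.Work.MP_376faf_co_lower

open Filter Topology
open scoped ENNReal

theorem aN_nonneg {μ : ℝ} (hμ : 1 ≤ μ) (n : ℕ) : 0 ≤ aN μ n := by
  unfold aN
  have : 0 < μ := by linarith
  positivity

/-- if the terms are eventually small then the sum of the square roots of the tails is finite -/
theorem finite_of_small {μ ε : ℝ} (hε : 0 < ε) (N0 : ℕ) (h1 : 1 ≤ N0)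
    (h : ∀ n ≥ N0, aN μ n ≤ (n : ℝ) ^ (-(4 + ε))) :
    ∑' N : ℕ, rt ((N : ℝ≥0∞) * TT μ N) ≠ ⊤ := by
  set Z : ℝ≥0∞ := ∑' n : ℕ, ENNReal.ofReal ((n : ℝ) ^ (-(1 + ε / 2))) with hZ
  have hZt : Z ≠ ⊤ := by
    have hs : Summable (fun n : ℕ => (n : ℝ) ^ (-(1 + ε / 2))) :=
      Real.summable_nat_rpow.2 (by linarith)
    rw [hZ, ← ENNReal.ofReal_tsum_of_nonneg (fun n => by positivity) hs]
    exact ENNReal.ofReal_ne_top
  have hT : ∀ S ≥ N0, TT μ S ≤ ENNReal.ofReal ((S : ℝ) ^ (-(3 + ε / 2))) * Z := by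
    intro S hS
    have hS0 : (0:ℝ) < S := by exact_mod_cast (by omega : 0 < S)
    rw [hZ, ← ENNReal.tsum_mul_left]
    unfold TT
    refine tsum_le_inj (fun n => n + S) (fun a b hab => by simpa using hab) (fun n => ?_)
    rw [← ENNReal.ofReal_mul (by positivity)]
    refine ENNReal.ofReal_le_ofReal ((h (n + S) (by omega)).trans ?_)
    have hnS : (S:ℝ) ≤ ((n + S : ℕ) : ℝ) := by push_cast; linarith [(Nat.cast_nonneg n : (0:ℝ) ≤ n)]
    have hnS0 : (0:ℝ) < ((n + S : ℕ) : ℝ) := lt_of_lt_of_le hS0 hnS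
    rw [show -(4 + ε) = -(3 + ε / 2) + -(1 + ε / 2) by ring, Real.rpow_add hnS0]
    refine mul_le_mul_of_nonneg_right ?_ (by positivity)
    exact Real.rpow_le_rpow_of_nonpos hS0 hnS (by linarith)
  have hTt : ∀ S, TT μ S ≠ ⊤ := by
    intro S
    have h0 : TT μ 0 ≠ ⊤ := by
      have e := (ENNReal.summable (f := fun n : ℕ => ENNReal.ofReal (aN μ (n + N0)))).sum_add_tsum_nat_add'
        (f := fun n : ℕ => ENNReal.ofReal (aN μ n))
      unfold TT
      simp only [add_zero]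
      rw [← e]
      refine ENNReal.add_ne_top.2 ⟨?_, ?_⟩
      · exact (ENNReal.sum_lt_top.2 (fun _ _ => ENNReal.ofReal_lt_top)).ne
      · exact ne_top_of_le_ne_top (ENNReal.mul_ne_top ENNReal.ofReal_ne_top hZt) (hT N0 le_rfl)
    exact ne_top_of_le_ne_top h0 (TT_anti μ (Nat.zero_le S))
  have hterm : ∀ S ≥ N0, rt ((S : ℝ≥0∞) * TT μ S) ≤
      ENNReal.ofReal ((S : ℝ) ^ (-(1 + ε / 4))) * rt Z := by
    intro S hS
    have hS0 : (0:ℝ) < S := by exact_mod_cast (by omega : 0 < S)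
    have h2 : (S : ℝ≥0∞) * TT μ S ≤ ENNReal.ofReal ((S : ℝ) ^ (-(2 + ε / 2))) * Z := by
      refine (mul_le_mul' le_rfl (hT S hS)).trans (le_of_eq ?_)
      rw [← mul_assoc, ← ENNReal.ofReal_natCast, ← ENNReal.ofReal_mul hS0.le]
      congr 2
      nth_rewrite 1 [← Real.rpow_one (S:ℝ)]
      rw [← Real.rpow_add hS0]
      congr 1
      ring
    refine (rt_mono h2).trans (le_of_eq ?_)
    rw [rt_mul, rt_ofReal (by positivity)]
    congr 2
    rw [Real.sqrt_eq_rpow, ← Real.rpow_mul hS0.le]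
    congr 1
    ring
  have e := (ENNReal.summable (f := fun n : ℕ => rt (((n + N0 : ℕ) : ℝ≥0∞) * TT μ (n + N0)))).sum_add_tsum_nat_add'
        (f := fun N : ℕ => rt ((N : ℝ≥0∞) * TT μ N))
  rw [← e]
  refine ENNReal.add_ne_top.2 ⟨?_, ?_⟩
  · refine (ENNReal.sum_lt_top.2 (fun N _ => ?_)).ne
    unfold rt
    exact ENNReal.rpow_lt_top_of_nonneg (by norm_num)
      (ENNReal.mul_ne_top (ENNReal.natCast_ne_top _) (hTt N))
  · have h3 : ∑' n : ℕ, rt (((n + N0 : ℕ) : ℝ≥0∞) * TT μ (n + N0)) ≤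
        ∑' n : ℕ, ENNReal.ofReal ((n : ℝ) ^ (-(1 + ε / 4))) * rt Z :=
      tsum_le_inj (fun n => n + N0) (fun a b hab => by simpa using hab)
        (fun n => hterm (n + N0) (by omega))
    refine ne_top_of_le_ne_top ?_ h3
    rw [ENNReal.tsum_mul_right]
    refine ENNReal.mul_ne_top ?_ ?_
    · have hs : Summable (fun n : ℕ => (n : ℝ) ^ (-(1 + ε / 4))) :=
        Real.summable_nat_rpow.2 (by linarith)
      rw [← ENNReal.ofReal_tsum_of_nonneg (fun n => by positivity) hs]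
      exact ENNReal.ofReal_ne_top
    · unfold rt
      exact (ENNReal.rpow_lt_top_of_nonneg (by norm_num) hZt).ne

theorem frequently_large {μ : ℝ} (hμ : 1 ≤ μ) (hc : ∀ n : ℕ, μ ^ n ≤ (Nat.card (WalkFun n) : ℝ))
    {ε : ℝ} (hε : 0 < ε) : ∃ᶠ n : ℕ in atTop, (n : ℝ) ^ (-(4 + ε)) < aN μ n := by
  by_contra hn
  rw [not_frequently] at hn
  obtain ⟨N0, hN0⟩ := eventually_atTop.1 hn
  refine finite_of_small (μ := μ) hε (N0 + 1) (by omega) (fun n hn' => ?_) (main_tail hμ hc)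
  exact not_lt.1 (hN0 n (by omega))

theorem exponent_le {μ : ℝ} (hμ : 1 ≤ μ) (hc : ∀ n : ℕ, μ ^ n ≤ (Nat.card (WalkFun n) : ℝ))
    {C α : ℝ} (h : Tendsto (fun n : ℕ => aN μ n * (n : ℝ) ^ α) atTop (𝓝 C)) : α ≤ 4 := by
  by_contra hα
  push Not at hα
  set ε := (α - 4) / 2 with hε
  have hε0 : 0 < ε := by rw [hε]; linarith
  have h1 := frequently_large hμ hc hε0
  have h2 : ∀ᶠ n : ℕ in atTop, aN μ n * (n : ℝ) ^ α < C + 1 :=
    h.eventually_lt_const (by linarith)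
  have h3 : ∀ᶠ n : ℕ in atTop, C + 1 < (n : ℝ) ^ ε :=
    ((tendsto_rpow_atTop hε0).comp tendsto_natCast_atTop_atTop).eventually_gt_atTop _
  obtain ⟨n, hn1, hn2, hn3, hn4⟩ := (h1.and_eventually (h2.and (h3.and (eventually_gt_atTop 0)))).exists
  have hn0 : (0:ℝ) < n := by exact_mod_cast hn4
  have h5 : (n : ℝ) ^ ε ≤ aN μ n * (n : ℝ) ^ α := by
    calc (n : ℝ) ^ ε = (n : ℝ) ^ (-(4 + ε)) * (n : ℝ) ^ α := by
          rw [← Real.rpow_add hn0]
          congr 1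
          rw [hε]; ring
      _ ≤ _ := mul_le_mul_of_nonneg_right hn1.le (by positivity)
  linarith

end Pool.Agent.Work.MP_376faf_co_lower
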