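import Pool.Agent.Work.MP_376faf_co_lower.Walks

/-! The counting sequences: walks and polygons as functions; existence of the connective
constant. -/

set_option autoImplicit false

namespace Pool.Agent.Work.MP_376faf_co_lower

open Filter Topology
open scoped ENNReal

abbrev WalkFun (n : ℕ) : Type := {f : Fin (n+1) → ℤ × ℤ // f 0 = 0 ∧ Function.Injective f ∧
  ∀ i : Fin n, |(f i.succ).1 - (f i.castSucc).1| + |(f i.succ).2 - (f i.castSucc).2| = 1}

abbrev PolyFun (n : ℕ) : Type := {f : ZMod (2*n) → ℤ × ℤ // f 0 = 0 ∧ Function.Injective f ∧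
  ∀ i : ZMod (2*n), |(f (i+1)).1 - (f i).1| + |(f (i+1)).2 - (f i).2| = 1}

theorem Un.bounds {s : Pt} (h : Un s) : s.1 ≤ 1 ∧ -1 ≤ s.1 ∧ s.2 ≤ 1 ∧ -1 ≤ s.2 := by
  unfold Un at h
  have h1 := abs_nonneg s.1
  have h2 := abs_nonneg s.2
  have h3 : |s.1| ≤ 1 := by omega
  have h4 : |s.2| ≤ 1 := by omega
  rw [abs_le] at h3 h4
  omega

theorem walk_box {n : ℕ} (f : Fin (n+1) → ℤ × ℤ) (h0 : f 0 = 0)
    (hs : ∀ i : Fin n, Un (f i.succ - f i.castSucc)) (i : Fin (n+1)) :
    |(f i).1| ≤ i.val ∧ |(f i).2| ≤ i.val := by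
  induction i using Fin.induction with
  | zero => simp [h0]
  | succ i ih =>
    have h := (hs i).bounds
    simp only [Fin.val_succ, Fin.val_castSucc, Prod.fst_sub, Prod.snd_sub] at *
    obtain ⟨h1, h2⟩ := ih
    rw [abs_le] at h1 h2
    constructor
    · rw [abs_le]; push_cast; constructor <;> omega
    · rw [abs_le]; push_cast; constructor <;> omega

instance walkFinite (n : ℕ) : Finite (WalkFun n) := by
  have hfin : (Set.pi Set.univ (fun _ : Fin (n+1) =>
      (Set.Icc ((-(n:ℤ), -(n:ℤ)) : ℤ × ℤ) ((n:ℤ), (n:ℤ))))).Finite :=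
    Set.Finite.pi (fun _ => Set.finite_Icc _ _)
  refine (hfin.subset (t := {f : Fin (n+1) → ℤ × ℤ | f 0 = 0 ∧ Function.Injective f ∧
    ∀ i : Fin n, |(f i.succ).1 - (f i.castSucc).1| + |(f i.succ).2 - (f i.castSucc).2| = 1})
    ?_).to_subtype
  rintro f ⟨h0, -, hs⟩ i -
  have := walk_box f h0 hs i
  have hi : (i.val : ℤ) ≤ n := by have := i.is_lt; omega
  rw [abs_le, abs_le] at this
  simp only [Set.mem_Icc, Prod.le_def]
  omega

theorem walk_pos (n : ℕ) : 1 ≤ Nat.card (WalkFun n) := by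
  have : Nonempty (WalkFun n) := by
    refine ⟨⟨fun i => ((i.val : ℤ), 0), by simp, ?_, ?_⟩⟩
    · intro i j hij
      simp only [Prod.mk.injEq, Nat.cast_inj, and_true] at hij
      exact Fin.ext hij
    · intro i
      simp
  exact Nat.card_pos

theorem walk_submul (m n : ℕ) :
    Nat.card (WalkFun (m + n)) ≤ Nat.card (WalkFun m) * Nat.card (WalkFun n) := by
  rw [← Nat.card_prod]
  let φ : WalkFun (m + n) → WalkFun m × WalkFun n := fun f =>
    (⟨fun i => f.1 ⟨i.val, by omega⟩, f.2.1, by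
        refine ⟨fun i j hij => ?_, fun i => ?_⟩
        · have := f.2.2.1 hij
          simp only [Fin.mk.injEq] at this
          exact Fin.ext this
        · exact f.2.2.2 ⟨i.val, by omega⟩⟩,
      ⟨fun j => f.1 ⟨m + j.val, by omega⟩ - f.1 ⟨m, by omega⟩, by simp, by
        refine ⟨fun i j hij => ?_, fun i => ?_⟩
        · have h1 : f.1 ⟨m + i.val, by omega⟩ = f.1 ⟨m + j.val, by omega⟩ := by
            simpa using hij
          have := f.2.2.1 h1
          simp only [Fin.mk.injEq] at this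
          exact Fin.ext (by omega)
        · have := f.2.2.2 ⟨m + i.val, by omega⟩
          simpa [add_assoc] using this⟩)
  refine Nat.card_le_card_of_injective φ ?_
  intro f g hfg
  simp only [φ, Prod.mk.injEq, Subtype.mk.injEq] at hfg
  obtain ⟨h1, h2⟩ := hfg
  apply Subtype.ext
  funext i
  by_cases hi : i.val ≤ m
  · have := congrFun h1 ⟨i.val, by omega⟩
    simpa using this
  · have a1 := congrFun h1 ⟨m, by omega⟩
    have a2 := congrFun h2 ⟨i.val - m, by omega⟩
    simp only at a1 a2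
    have e : m + (i.val - m) = i.val := by omega
    simp only [e] at a2
    rw [a1] at a2
    simpa using a2

/-- the connective constant exists and bounds the number of walks from below -/
theorem exists_mu : ∃ μ : ℝ, 1 ≤ μ ∧
    Tendsto (fun n : ℕ => ((Nat.card (WalkFun n) : ℕ) : ℝ) ^ ((1:ℝ) / (n:ℝ))) atTop (𝓝 μ) ∧
    ∀ n : ℕ, μ ^ n ≤ (Nat.card (WalkFun n) : ℝ) := by
  set u : ℕ → ℝ := fun n => Real.log (Nat.card (WalkFun n)) with hu
  have hpos : ∀ n, (0:ℝ) < (Nat.card (WalkFun n) : ℝ) := fun n => by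
    have := walk_pos n
    exact_mod_cast this
  have hone : ∀ n, (1:ℝ) ≤ (Nat.card (WalkFun n) : ℝ) := fun n => by
    have := walk_pos n
    exact_mod_cast this
  have hsub : Subadditive u := by
    intro m n
    simp only [hu]
    rw [← Real.log_mul (hpos m).ne' (hpos n).ne']
    exact Real.log_le_log (hpos _) (by exact_mod_cast walk_submul m n)
  have hnn : ∀ n, 0 ≤ u n / n := fun n =>
    div_nonneg (Real.log_nonneg (hone n)) (Nat.cast_nonneg n)
  have hbdd : BddBelow (Set.range fun n => u n / n) := ⟨0, by rintro _ ⟨n, rfl⟩; exact hnn n⟩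
  have hlim := hsub.tendsto_lim hbdd
  have hL : 0 ≤ hsub.lim := ge_of_tendsto' hlim hnn
  refine ⟨Real.exp hsub.lim, Real.one_le_exp hL, ?_, ?_⟩
  · have := (Real.continuous_exp.tendsto _).comp hlim
    refine this.congr (fun n => ?_)
    simp only [Function.comp, hu]
    rw [Real.rpow_def_of_pos (hpos n)]
    congr 1
    ring
  · intro n
    rcases Nat.eq_zero_or_pos n with h0 | h0
    · subst h0
      simpa using hone 0
    · have h1 := hsub.lim_le_div hbdd h0.ne'
      rw [← Real.exp_nat_mul]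
      calc Real.exp (n * hsub.lim) ≤ Real.exp (u n) := by
            refine Real.exp_le_exp.2 ?_
            have hn : (0:ℝ) < n := by exact_mod_cast h0
            rw [le_div_iff₀ hn] at h1
            linarith
        _ = _ := Real.exp_log (hpos n)

/-- walks as lists of steps -/
theorem walk_card_le (n : ℕ) (x : ℝ≥0∞) :
    (Nat.card (WalkFun n) : ℝ≥0∞) * x ^ n ≤ mass x (fun l => Walk l ∧ l.length = n) := by
  classical
  have : Fintype (WalkFun n) := Fintype.ofFinite _
  let st : WalkFun n → List Pt := fun f => List.ofFn (fun i : Fin n => f.1 i.succ - f.1 i.castSucc)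
  have hlen : ∀ f, (st f).length = n := fun f => by simp [st]
  have hpos : ∀ f : WalkFun n, ∀ i : Fin (n + 1), pos (st f) i.val = f.1 i := by
    intro f i
    induction i using Fin.induction with
    | zero => simp [f.2.1]
    | succ i ih =>
      have h1 : i.val < (st f).length := by rw [hlen]; exact i.is_lt
      rw [Fin.val_succ, pos_succ _ h1]
      rw [Fin.val_castSucc] at ih
      rw [ih]
      simp [st]
  have hw : ∀ f, Walk (st f) := by
    intro f
    refine ⟨?_, ?_⟩
    · intro s hs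
      obtain ⟨i, rfl⟩ := List.mem_ofFn.1 hs
      exact f.2.2.2 i
    · intro i hi j hj hij
      simp only [Set.mem_Iic, hlen] at hi hj
      have h1 := hpos f ⟨i, by omega⟩
      have h2 := hpos f ⟨j, by omega⟩
      simp only at h1 h2
      rw [h1, h2] at hij
      have := f.2.2.1 hij
      simpa using this
  have h1 : ∑' _ : WalkFun n, x ^ n = (Nat.card (WalkFun n) : ℝ≥0∞) * x ^ n := by
    rw [tsum_fintype, Finset.sum_const, Finset.card_univ, nsmul_eq_mul, Nat.card_eq_fintype_card]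
  rw [← h1]
  unfold mass
  refine tsum_le_inj (fun f : WalkFun n =>
    (⟨st f, hw f, hlen f⟩ : {l // Walk l ∧ l.length = n})) ?_ ?_
  · intro f g hfg
    have e : st f = st g := congrArg (fun t : {l // Walk l ∧ l.length = n} => t.1) hfg
    apply Subtype.ext
    funext i
    rw [← hpos f i, ← hpos g i, e]
  · intro f
    simp only [hlen]
    exact le_rfl

theorem mass_walk_top {μ : ℝ} (hμ : 1 ≤ μ) (h : ∀ n : ℕ, μ ^ n ≤ (Nat.card (WalkFun n) : ℝ)) :
    mass (ENNReal.ofReal μ)⁻¹ Walk = ⊤ := by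
  have hμ0 : 0 < μ := by linarith
  have h1 : ∑' n : ℕ, mass (ENNReal.ofReal μ)⁻¹ (fun l => Walk l ∧ l.length = n) ≤
      mass (ENNReal.ofReal μ)⁻¹ Walk := by
    unfold mass
    rw [← ENNReal.tsum_sigma' (f := fun p : Σ n : ℕ, {l // Walk l ∧ l.length = n} =>
      (ENNReal.ofReal μ)⁻¹ ^ p.2.1.length)]
    refine tsum_le_inj (fun p : Σ n : ℕ, {l // Walk l ∧ l.length = n} =>
      (⟨p.2.1, p.2.2.1⟩ : {l // Walk l})) ?_ (fun _ => le_rfl)
    rintro ⟨i, l, hl, rfl⟩ ⟨j, m, hm, rfl⟩ hab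
    have h1 := congrArg (fun t : {l // Walk l} => t.1) hab
    simp only at h1
    subst h1
    rfl
  rw [← top_le_iff]
  refine le_trans ?_ h1
  have h2 : ∀ n : ℕ, (1 : ℝ≥0∞) ≤ mass (ENNReal.ofReal μ)⁻¹ (fun l => Walk l ∧ l.length = n) := by
    intro n
    refine le_trans ?_ (walk_card_le n _)
    have h3 : ENNReal.ofReal μ ^ n ≤ (Nat.card (WalkFun n) : ℝ≥0∞) := by
      rw [← ENNReal.ofReal_pow hμ0.le, ← ENNReal.ofReal_natCast]
      exact ENNReal.ofReal_le_ofReal (h n)
    calc (1 : ℝ≥0∞) = ENNReal.ofReal μ ^ n * (ENNReal.ofReal μ)⁻¹ ^ n := by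
          rw [← mul_pow, ENNReal.mul_inv_cancel (by simpa using hμ0) ENNReal.ofReal_ne_top, one_pow]
      _ ≤ _ := mul_le_mul' h3 le_rfl
  refine le_trans ?_ (ENNReal.tsum_le_tsum h2)
  rw [ENNReal.tsum_const_eq_top_of_ne_zero one_ne_zero]

theorem mass_half_top {μ : ℝ} (hμ : 1 ≤ μ) (h : ∀ n : ℕ, μ ^ n ≤ (Nat.card (WalkFun n) : ℝ)) :
    mass (ENNReal.ofReal μ)⁻¹ Half = ⊤ := by
  have h1 := walk_le_half (ENNReal.ofReal μ)⁻¹
  rw [mass_walk_top hμ h, ENNReal.mul_top (by simp)] at h1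
  have h2 := top_le_iff.1 h1
  by_contra hne
  exact ENNReal.mul_ne_top hne hne h2

end Pool.Agent.Work.MP_376faf_co_lower
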