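import Pool.Agent.Work.MP_376faf_co_lower.Renewal

/-! Periodic curves and sliding them until they touch. -/

set_option autoImplicit false

namespace Pool.Agent.Work.MP_376faf_co_lower

open scoped ENNReal

/-- a periodic self-avoiding curve -/
structure PC (γ : ℤ → Pt) (n : ℕ) (v : Pt) : Prop where
  pos : 0 < n
  per : ∀ i, γ (i + n) = γ i + v
  step : ∀ i, Un (γ (i + 1) - γ i)
  inj : Function.Injective γ

theorem PC.mul {γ : ℤ → Pt} {n : ℕ} {v : Pt} (h : PC γ n v) (i q : ℤ) :
    γ (i + q * n) = γ i + q • v := by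
  induction q using Int.induction_on with
  | zero => simp
  | succ q ih =>
    have := h.per (i + q * n)
    rw [ih] at this
    rw [show i + ((q : ℤ) + 1) * n = i + q * n + n by ring, this, add_smul, one_smul, add_assoc]
  | pred q ih =>
    have := h.per (i + (-(q : ℤ) - 1) * n)
    rw [show i + (-(q : ℤ) - 1) * n + n = i + -(q : ℤ) * n by ring, ih] at this
    rw [sub_smul, one_smul, ← add_sub_assoc]
    exact (sub_eq_of_eq_add this).symm

theorem ivt_int (g : ℤ → ℤ) (hg : ∀ i, g (i + 1) ≤ g i + 1) (a : ℤ) (d : ℕ) (x : ℤ)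
    (h1 : g a ≤ x) (h2 : x ≤ g (a + d)) : ∃ i, g i = x := by
  induction d with
  | zero =>
    simp only [Nat.cast_zero, add_zero] at h2
    exact ⟨a, le_antisymm h1 h2⟩
  | succ d ih =>
    by_cases h : x ≤ g (a + d)
    · exact ih h
    · push Not at h
      have := hg (a + d)
      push_cast at h2
      rw [← add_assoc] at h2
      exact ⟨a + d + 1, by omega⟩

theorem Un.fst_le {s : Pt} (h : Un s) : s.1 ≤ 1 ∧ -1 ≤ s.1 ∧ s.2 ≤ 1 ∧ -1 ≤ s.2 := by
  unfold Un at h
  have h1 := abs_nonneg s.1
  have h2 := abs_nonneg s.2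
  have h3 : |s.1| ≤ 1 := by omega
  have h4 : |s.2| ≤ 1 := by omega
  rw [abs_le] at h3 h4
  omega

theorem PC.col {γ : ℤ → Pt} {n : ℕ} {v : Pt} (h : PC γ n v) (hv : 0 < v.1) (x : ℤ) :
    ∃ i, (γ i).1 = x := by
  set Q : ℕ := (|x - (γ 0).1|).toNat with hQ
  have hQ' : (Q : ℤ) = |x - (γ 0).1| := by
    rw [hQ]; exact Int.toNat_of_nonneg (abs_nonneg _)
  have h1 := h.mul 0 (-(Q : ℤ))
  have h2 := h.mul 0 (Q : ℤ)
  refine ivt_int (fun i => (γ i).1) (fun i => ?_) (0 + -(Q : ℤ) * n) (2 * Q * n) x ?_ ?_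
  · have := (h.step i).fst_le.1
    simp only [Prod.fst_sub] at this
    omega
  · rw [h1]
    simp only [Prod.fst_add, Prod.smul_fst, smul_eq_mul]
    have h3 : (Q : ℤ) ≤ Q * v.1 := by nlinarith [Int.natCast_nonneg Q]
    have h4 := neg_abs_le (x - (γ 0).1)
    rw [← hQ'] at h4
    have h5 : -(Q : ℤ) * v.1 = -(Q * v.1) := by ring
    omega
  · have e : 0 + -(Q : ℤ) * n + ((2 * Q * n : ℕ) : ℤ) = 0 + (Q : ℤ) * n := by push_cast; ring
    simp only [e]
    rw [h2]
    simp only [Prod.fst_add, Prod.smul_fst, smul_eq_mul]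
    have h3 : (Q : ℤ) ≤ Q * v.1 := by nlinarith [Int.natCast_nonneg Q]
    have h4 := le_abs_self (x - (γ 0).1)
    rw [← hQ'] at h4
    omega

theorem exists_bound (γ : ℤ → Pt) (n : ℕ) : ∃ A : ℤ, ∀ i : ℤ, 0 ≤ i → i < n →
    |(γ i).1| ≤ A ∧ |(γ i).2| ≤ A := by
  refine ⟨∑ i ∈ Finset.range n, (|(γ i).1| + |(γ i).2|), fun i h0 hi => ?_⟩
  obtain ⟨j, rfl⟩ := Int.eq_ofNat_of_zero_le h0
  have := Finset.single_le_sum (f := fun i : ℕ => |(γ i).1| + |(γ i).2|)
    (fun i _ => add_nonneg (abs_nonneg _) (abs_nonneg _))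
    (Finset.mem_range.2 (by exact_mod_cast hi : j < n))
  have h1 := abs_nonneg (γ (j : ℤ)).1
  have h2 := abs_nonneg (γ (j : ℤ)).2
  constructor <;> omega

/-- sliding the second curve upwards until it touches the first one -/
theorem touch {γ δ : ℤ → Pt} {n m : ℕ} {v : Pt} (hγ : PC γ n v) (hδ : PC δ m v) (hv : 0 < v.1)
    (h : ℤ) : ∃ y i0 j0, γ i0 - (0, 1) = δ j0 + (h, y) ∧ ∀ i j, γ i ≠ δ j + (h, y) := by
  obtain ⟨A, hA⟩ := exists_bound γ n
  obtain ⟨B, hB⟩ := exists_bound δ m
  have hn := hγ.pos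
  have hm := hδ.pos
  have hbdd : ∃ b : ℤ, ∀ y, (∃ i j, γ i = δ j + (h, y)) → b ≤ y := by
    refine ⟨-(A + B) - (A + B + |h|) * |v.2|, ?_⟩
    rintro y ⟨i, j, hij⟩
    have e1 := hγ.mul (i % n) (i / n)
    rw [Int.emod_add_ediv_mul] at e1
    have e2 := hδ.mul (j - i / n * m) (i / n)
    rw [sub_add_cancel] at e2
    set j' := j - i / n * m with hj'
    have e3 := hδ.mul (j' % m) (j' / m)
    rw [Int.emod_add_ediv_mul] at e3
    rw [e1, e2, e3] at hij
    have hA' := hA (i % n) (Int.emod_nonneg _ (by omega)) (Int.emod_lt_of_pos _ (by omega))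
    have hB' := hB (j' % m) (Int.emod_nonneg _ (by omega)) (Int.emod_lt_of_pos _ (by omega))
    set p := j' / (m : ℤ) with hp
    have k1 : (γ (i % n)).1 = (δ (j' % m)).1 + p * v.1 + h := by
      have := congrArg Prod.fst hij
      simp only [Prod.fst_add, Prod.smul_fst, smul_eq_mul] at this
      omega
    have k2 : (γ (i % n)).2 = (δ (j' % m)).2 + p * v.2 + y := by
      have := congrArg Prod.snd hij
      simp only [Prod.snd_add, Prod.smul_snd, smul_eq_mul] at this
      omega
    have a1 := abs_le.1 hA'.1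
    have a2 := abs_le.1 hA'.2
    have b1 := abs_le.1 hB'.1
    have b2 := abs_le.1 hB'.2
    have hh := abs_le.1 (le_refl |h|)
    have p1 : |p * v.1| ≤ A + B + |h| := by
      rw [abs_le]; constructor <;> omega
    have p2 : |p| ≤ A + B + |h| := by
      rw [abs_mul] at p1
      have : |p| * 1 ≤ |p| * |v.1| := by
        refine mul_le_mul_of_nonneg_left ?_ (abs_nonneg _)
        rw [abs_of_pos hv]; omega
      omega
    have p3 : p * v.2 ≤ (A + B + |h|) * |v.2| := by
      calc p * v.2 ≤ |p * v.2| := le_abs_self _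
        _ = |p| * |v.2| := abs_mul _ _
        _ ≤ _ := mul_le_mul_of_nonneg_right p2 (abs_nonneg _)
    omega
  have hne : ∃ y, ∃ i j, γ i = δ j + (h, y) := by
    obtain ⟨i, hi⟩ := hγ.col hv ((δ 0).1 + h)
    refine ⟨(γ i).2 - (δ 0).2, i, 0, ?_⟩
    ext
    · simp [hi]
    · simp
  obtain ⟨y, ⟨i0, j0, hy⟩, hmin⟩ := Int.exists_least_of_bdd hbdd hne
  refine ⟨y - 1, i0, j0, ?_, ?_⟩
  · rw [hy]
    ext
    · simp
    · simp; ring
  · intro i j hij
    have := hmin (y - 1) ⟨i, j, hij⟩
    omega

/-- periodic extension of a walk -/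
def per (L : List Pt) (i : ℤ) : Pt := (i / L.length) • L.sum + pos L (i % L.length).toNat

theorem per_nat {L : List Pt} {i : ℕ} (hi : i ≤ L.length) (h0 : L ≠ []) : per L i = pos L i := by
  have hn : 0 < L.length := List.length_pos_iff.2 h0
  unfold per
  rcases hi.lt_or_eq with h | h
  · rw [Int.ediv_eq_zero_of_lt (by omega) (by omega), Int.emod_eq_of_lt (by omega) (by omega)]
    simp
  · rw [h, Int.ediv_self (by omega), Int.emod_self]
    simp [pos_len]

theorem per_zero (L : List Pt) : per L 0 = 0 := by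
  simp [per]

theorem per_succ {L : List Pt} (h0 : L ≠ []) (i : ℤ) :
    per L (i + 1) = per L i + L.getD (i % L.length).toNat 0 := by
  have hn : 0 < L.length := List.length_pos_iff.2 h0
  have h1 : 0 ≤ i % (L.length : ℤ) := Int.emod_nonneg _ (by omega)
  have h2 : i % (L.length : ℤ) < L.length := Int.emod_lt_of_pos _ (by omega)
  have h3 := Int.emod_add_ediv_mul i (L.length : ℤ)
  have hlt : (i % (L.length : ℤ)).toNat < L.length := by omega
  unfold per
  rw [List.getD_eq_getElem _ _ hlt]
  by_cases h : i % (L.length : ℤ) + 1 < L.length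
  · have e1 : (i + 1) / (L.length : ℤ) = i / L.length ∧ (i + 1) % (L.length : ℤ) = i % L.length + 1 := by
      rw [Int.ediv_emod_unique (by omega)]
      refine ⟨?_, by omega, by omega⟩
      linarith [h3, mul_comm (i / (L.length : ℤ)) (L.length : ℤ)]
    rw [e1.1, e1.2]
    have e2 : (i % (L.length : ℤ) + 1).toNat = (i % (L.length : ℤ)).toNat + 1 := by omega
    rw [e2, pos_succ L hlt, add_assoc]
  · have e1 : (i + 1) / (L.length : ℤ) = i / L.length + 1 ∧ (i + 1) % (L.length : ℤ) = 0 := by
      rw [Int.ediv_emod_unique (by omega)]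
      refine ⟨?_, by omega, by omega⟩
      have : (L.length : ℤ) * (i / L.length + 1) = i / L.length * L.length + L.length := by ring
      rw [this]
      omega
    rw [e1.1, e1.2]
    have e3 : (i % (L.length : ℤ)).toNat + 1 = L.length := by omega
    have e2 := pos_succ L hlt
    rw [e3, pos_len] at e2
    simp only [Int.toNat_zero, pos_zero, add_zero]
    rw [add_smul, one_smul, add_assoc, ← e2]

theorem per_rotate {L : List Pt} (h0 : L ≠ []) (a : ℕ) (i : ℤ) :
    per (L.rotate a) i = per L (i + a) - per L a := by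
  have hn : 0 < L.length := List.length_pos_iff.2 h0
  have h0' : L.rotate a ≠ [] := by
    rw [← List.length_pos_iff, List.length_rotate]; exact hn
  have key : ∀ i : ℤ, (L.rotate a).getD (i % (L.rotate a).length).toNat 0 =
      L.getD ((i + a) % L.length).toNat 0 := by
    intro i
    rw [List.length_rotate]
    have h1 : 0 ≤ i % (L.length : ℤ) := Int.emod_nonneg _ (by omega)
    have h2 : i % (L.length : ℤ) < L.length := Int.emod_lt_of_pos _ (by omega)
    have h3 : 0 ≤ (i + a) % (L.length : ℤ) := Int.emod_nonneg _ (by omega)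
    have h4 : (i + a) % (L.length : ℤ) < L.length := Int.emod_lt_of_pos _ (by omega)
    rw [List.getD_eq_getElem _ _ (by rw [List.length_rotate]; omega),
      List.getD_eq_getElem _ _ (by omega), List.getElem_rotate]
    congr 1
    zify
    rw [Int.toNat_of_nonneg h1, Int.toNat_of_nonneg h3, Int.emod_add_emod]
  induction i using Int.induction_on with
  | zero => simp [per_zero]
  | succ i ih =>
    rw [per_succ h0', ih, key, show (i : ℤ) + 1 + a = (i + a) + 1 by ring, per_succ h0]
    abel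
  | pred i ih =>
    have e1 := per_succ h0' (-(i : ℤ) - 1)
    have e2 := per_succ h0 (-(i : ℤ) - 1 + a)
    rw [key, sub_add_cancel, ih] at e1
    rw [show -(i : ℤ) - 1 + a + 1 = -(i : ℤ) + a by ring] at e2
    rw [e2] at e1
    have e3 : per (L.rotate a) (-(i : ℤ) - 1) = (per L (-(i : ℤ) - 1 + a) +
      L.getD ((-(i : ℤ) - 1 + a) % L.length).toNat 0 - per L a) -
      L.getD ((-(i : ℤ) - 1 + a) % L.length).toNat 0 := by
      rw [e1]; abel
    rw [e3]; abel

theorem per_add {L : List Pt} (h0 : L ≠ []) (i : ℤ) : per L (i + L.length) = per L i + L.sum := by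
  have hn : 0 < L.length := List.length_pos_iff.2 h0
  unfold per
  rw [Int.add_emod_right, Int.add_ediv_of_dvd_right (dvd_refl _), Int.ediv_self (by omega),
    add_smul, one_smul]
  abel

theorem per_step {L : List Pt} (h0 : L ≠ []) (hu : ∀ s ∈ L, Un s) (i : ℤ) :
    Un (per L (i + 1) - per L i) := by
  have hn : 0 < L.length := List.length_pos_iff.2 h0
  have h1 : 0 ≤ i % (L.length : ℤ) := Int.emod_nonneg _ (by omega)
  have h2 : i % (L.length : ℤ) < L.length := Int.emod_lt_of_pos _ (by omega)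
  rw [per_succ h0, List.getD_eq_getElem _ _ (by omega), add_sub_cancel_left]
  exact hu _ (List.getElem_mem _)

theorem Bridge.pos_fst {l : List Pt} (h : Bridge l) (h0 : l ≠ []) : 0 < l.sum.1 := by
  rw [← pos_len]
  exact (h.2 l.length (List.length_pos_iff.2 h0) le_rfl).1

theorem bridge_per_inj {l : List Pt} (h : Bridge l) (h0 : l ≠ []) : Function.Injective (per l) := by
  have hn : 0 < l.length := List.length_pos_iff.2 h0
  have hk := h.pos_fst h0
  have hx : ∀ i : ℕ, i < l.length → 0 ≤ (pos l i).1 ∧ (pos l i).1 ≤ l.sum.1 := by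
    intro i hi
    refine ⟨h.nonneg hi.le, ?_⟩
    rw [← pos_len]; exact h.le_end hi.le
  have key : ∀ i j : ℤ, per l i = per l j → ¬ i / (l.length : ℤ) < j / (l.length : ℤ) := by
    intro i j hij hlt
    have i1 : 0 ≤ i % (l.length : ℤ) := Int.emod_nonneg _ (by omega)
    have i2 : i % (l.length : ℤ) < l.length := Int.emod_lt_of_pos _ (by omega)
    have j1 : 0 ≤ j % (l.length : ℤ) := Int.emod_nonneg _ (by omega)
    have j2 : j % (l.length : ℤ) < l.length := Int.emod_lt_of_pos _ (by omega)
    unfold per at hij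
    set q := i / (l.length : ℤ)
    set q' := j / (l.length : ℤ)
    set i' := (i % (l.length : ℤ)).toNat
    set j' := (j % (l.length : ℤ)).toNat
    have hi' : i' < l.length := by omega
    have hj' : j' < l.length := by omega
    have e1 := congrArg Prod.fst hij
    simp only [Prod.fst_add, Prod.smul_fst, smul_eq_mul] at e1
    have a1 := hx i' hi'
    have b1 := hx j' hj'
    obtain ⟨d, hd⟩ : ∃ d : ℕ, q' = q + 1 + d := ⟨(q' - q - 1).toNat, by omega⟩
    rw [hd, add_mul, add_mul, one_mul] at e1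
    have hd0 : 0 ≤ (d : ℤ) * l.sum.1 := by positivity
    have hj0 : j' = 0 := by
      by_contra hne
      have := (h.2 j' (by omega) hj'.le).1
      omega
    have hdz : (d : ℤ) * l.sum.1 = 0 := by omega
    have hd1 : (d : ℤ) = 0 := by
      rcases mul_eq_zero.1 hdz with h1 | h1
      · exact h1
      · omega
    rw [hd, hd1, hj0, add_zero, pos_zero, add_zero, add_smul, one_smul] at hij
    have e2 := add_left_cancel hij
    rw [← pos_len] at e2
    have := h.1.2 (show i' ∈ Set.Iic l.length from hi'.le) (show l.length ∈ Set.Iic l.length from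
      le_refl l.length) e2
    omega
  intro i j hij
  have h1 := key i j hij
  have h2 := key j i hij.symm
  have hq : i / (l.length : ℤ) = j / (l.length : ℤ) := by omega
  have i1 : 0 ≤ i % (l.length : ℤ) := Int.emod_nonneg _ (by omega)
  have i2 : i % (l.length : ℤ) < l.length := Int.emod_lt_of_pos _ (by omega)
  have j1 : 0 ≤ j % (l.length : ℤ) := Int.emod_nonneg _ (by omega)
  have j2 : j % (l.length : ℤ) < l.length := Int.emod_lt_of_pos _ (by omega)
  have hm : (i % (l.length : ℤ)).toNat = (j % (l.length : ℤ)).toNat := by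
    unfold per at hij
    rw [hq] at hij
    refine h.1.2 ?_ ?_ (add_left_cancel hij)
    · simp only [Set.mem_Iic]; omega
    · simp only [Set.mem_Iic]; omega
  have hm' : i % (l.length : ℤ) = j % (l.length : ℤ) := by omega
  rw [← Int.emod_add_ediv_mul i (l.length : ℤ), ← Int.emod_add_ediv_mul j (l.length : ℤ), hq, hm']

theorem bridge_PC {l : List Pt} (h : Bridge l) (h0 : l ≠ []) : PC (per l) l.length l.sum :=
  ⟨List.length_pos_iff.2 h0, per_add h0, per_step h0 h.1.1, bridge_per_inj h h0⟩

/-- a pair of disjoint periodic curves, adjacent at the origin -/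
structure Good (v : Pt) (L L' : List Pt) : Prop where
  ne : L ≠ []
  ne' : L' ≠ []
  un : ∀ s ∈ L, Un s
  un' : ∀ s ∈ L', Un s
  sum : L.sum = v
  sum' : L'.sum = v
  inj : Function.Injective (per L)
  inj' : Function.Injective (per L')
  dis : ∀ i j, per L i ≠ per L' j - (0, 1)

theorem rotate_inj {L : List Pt} (h0 : L ≠ []) (h : Function.Injective (per L)) (a : ℕ) :
    Function.Injective (per (L.rotate a)) := by
  intro i j hij
  rw [per_rotate h0, per_rotate h0] at hij
  have := h (sub_left_inj.1 hij)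
  omega

theorem rotate_ne {L : List Pt} (h0 : L ≠ []) (a : ℕ) : L.rotate a ≠ [] := by
  rw [← List.length_pos_iff, List.length_rotate]; exact List.length_pos_iff.2 h0

theorem rotate_sum (L : List Pt) (a : ℕ) : (L.rotate a).sum = L.sum :=
  (List.rotate_perm L a).sum_eq

/-- for every phase h there is a good pair of rotations -/
theorem exists_good {v : Pt} {ω η : List Pt} (hω : Bridge ω) (hη : Bridge η) (h1 : ω ≠ [])
    (h2 : η ≠ []) (hs : ω.sum = v) (hs' : η.sum = v) (h : ℤ) :
    ∃ a < ω.length, ∃ b < η.length, Good v (ω.rotate a) (η.rotate b) ∧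
      v.1 ∣ h - ((pos ω a).1 - (pos η b).1) := by
  have hv : 0 < v.1 := by rw [← hs]; exact hω.pos_fst h1
  have P1 : PC (per ω) ω.length v := by rw [← hs]; exact bridge_PC hω h1
  have P2 : PC (per η) η.length v := by rw [← hs']; exact bridge_PC hη h2
  obtain ⟨y, i0, j0, e, hd⟩ := touch P1 P2 hv h
  have hn := P1.pos
  have hm := P2.pos
  have i1 : 0 ≤ i0 % (ω.length : ℤ) := Int.emod_nonneg _ (by omega)
  have i2 : i0 % (ω.length : ℤ) < ω.length := Int.emod_lt_of_pos _ (by omega)
  have j1 : 0 ≤ j0 % (η.length : ℤ) := Int.emod_nonneg _ (by omega)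
  have j2 : j0 % (η.length : ℤ) < η.length := Int.emod_lt_of_pos _ (by omega)
  obtain ⟨a, ha⟩ := Int.eq_ofNat_of_zero_le i1
  obtain ⟨b, hb⟩ := Int.eq_ofNat_of_zero_le j1
  have e1 := P1.mul a (i0 / ω.length)
  rw [← ha, Int.emod_add_ediv_mul, ha] at e1
  have e2 := P2.mul b (j0 / η.length)
  rw [← hb, Int.emod_add_ediv_mul, hb] at e2
  have hal : a < ω.length := by omega
  have hbl : b < η.length := by omega
  refine ⟨a, hal, b, hbl, ⟨rotate_ne h1 _, rotate_ne h2 _, ?_, ?_, ?_, ?_,
    rotate_inj h1 P1.inj _, rotate_inj h2 P2.inj _, ?_⟩, ?_⟩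
  · intro s hs; exact hω.1.1 s (List.mem_rotate.1 hs)
  · intro s hs; exact hη.1.1 s (List.mem_rotate.1 hs)
  · rw [rotate_sum, hs]
  · rw [rotate_sum, hs']
  · intro i j hij
    rw [per_rotate h1, per_rotate h2] at hij
    refine hd (i + a + i0 / ω.length * ω.length) (j + b + j0 / η.length * η.length) ?_
    rw [P1.mul, P2.mul]
    rw [e1, e2] at e
    have e3 : per ω (i + a) = per η (j + b) - per η b - (0, 1) + per ω a := by rw [← hij]; abel
    have e4 : per ω a + (i0 / (ω.length : ℤ)) • v = per η b + (j0 / (η.length : ℤ)) • v + (h, y) + (0, 1) := by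
      rw [← e]; abel
    calc per ω (i + a) + (i0 / (ω.length : ℤ)) • v
        = per η (j + b) - per η b - (0, 1) + (per ω a + (i0 / (ω.length : ℤ)) • v) := by rw [e3]; abel
      _ = per η (j + b) + (j0 / (η.length : ℤ)) • v + (h, y) := by rw [e4]; abel
  · rw [e1, e2, per_nat hal.le h1, per_nat hbl.le h2] at e
    have := congrArg Prod.fst e
    simp only [Prod.fst_add, Prod.fst_sub, Prod.smul_fst, smul_eq_mul, sub_zero] at this
    refine ⟨i0 / ω.length - j0 / η.length, ?_⟩
    linarith

end Pool.Agent.Work.MP_376faf_co_lower
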