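import Pool.Agent.Work.MP_376faf_co_lower.Counting
import Pool.Agent.Work.MP_376faf_co_lower.Model

/-! From good pairs to polygons. -/

set_option autoImplicit false

namespace Pool.Agent.Work.MP_376faf_co_lower

open scoped ENNReal

/-- vertices of the polygon -/
def vert (L L' : List Pt) (i : ℕ) : Pt :=
  if i ≤ L.length then per L i
  else per L' ((L.length : ℤ) + L'.length + 1 - i) - (0, 1)

theorem vert_inj {v : Pt} {L L' : List Pt} (h : Good v L L') {i j : ℕ}
    (hij : vert L L' i = vert L L' j) : i = j := by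
  unfold vert at hij
  split_ifs at hij with h1 h2 h2
  · have := h.inj hij; omega
  · exact absurd hij (h.dis _ _)
  · exact absurd hij.symm (h.dis _ _)
  · have := h.inj' (sub_left_inj.1 hij); omega

theorem Un.neg {s : Pt} (h : Un s) : Un (-s) := by
  unfold Un at *; simpa using h

theorem vert_step {v : Pt} {L L' : List Pt} (h : Good v L L') {i : ℕ}
    (hi : i + 1 < L.length + L'.length + 2) : Un (vert L L' (i + 1) - vert L L' i) := by
  have hn := List.length_pos_iff.2 h.ne
  have hm := List.length_pos_iff.2 h.ne'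
  unfold vert
  split_ifs with h1 h2 h2
  · push_cast; exact per_step h.ne h.un i
  · omega
  · have hiL : i = L.length := by omega
    subst hiL
    have e1 : per L L.length = v := by
      rw [per_nat le_rfl h.ne, pos_len, h.sum]
    have e2 : per L' ((L.length : ℤ) + L'.length + 1 - ((L.length + 1 : ℕ) : ℤ)) = v := by
      rw [show (L.length : ℤ) + L'.length + 1 - ((L.length + 1 : ℕ) : ℤ) = L'.length by
        push_cast; ring, per_nat le_rfl h.ne', pos_len, h.sum']
    rw [e1, e2]
    simp [Un]
  · have e1 : ((L.length : ℤ) + L'.length + 1 - (i : ℤ)) =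
      ((L.length : ℤ) + L'.length + 1 - ((i + 1 : ℕ) : ℤ)) + 1 := by push_cast; ring
    rw [e1]
    have := (per_step h.ne' h.un' ((L.length : ℤ) + L'.length + 1 - ((i + 1 : ℕ) : ℤ))).neg
    convert this using 1
    abel

theorem vert_zero (L L' : List Pt) : vert L L' 0 = 0 := by
  simp [vert, per_zero]

theorem vert_last {v : Pt} {L L' : List Pt} (h : Good v L L') :
    vert L L' (L.length + L'.length + 1) = -(0, 1) := by
  have hm := List.length_pos_iff.2 h.ne'
  unfold vert
  rw [if_neg (by omega)]
  rw [show (L.length : ℤ) + L'.length + 1 - ((L.length + L'.length + 1 : ℕ) : ℤ) = 0 by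
    push_cast; ring, per_zero]
  simp

theorem vert_len {v : Pt} {L L' : List Pt} (h : Good v L L') :
    vert L L' L.length = v := by
  unfold vert
  rw [if_pos le_rfl, per_nat le_rfl h.ne, pos_len, h.sum]

theorem vert_shift {v : Pt} {L L' : List Pt} (h : Good v L L') {i j : ℕ}
    (hi : i < L.length + L'.length + 2) (hj : j < L.length + L'.length + 2)
    (hij : vert L L' i + v = vert L L' j) : i = 0 ∨ i = L.length + L'.length + 1 := by
  have hm := List.length_pos_iff.2 h.ne'
  unfold vert at hij
  split_ifs at hij with h1 h2 h2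
  · left
    rw [← h.sum, ← per_add h.ne] at hij
    have := h.inj hij; omega
  · exfalso
    rw [← h.sum, ← per_add h.ne] at hij
    exact absurd hij (h.dis _ _)
  · exfalso
    rw [sub_add_eq_add_sub, ← h.sum', ← per_add h.ne'] at hij
    exact absurd hij.symm (h.dis _ _)
  · right
    rw [sub_add_eq_add_sub, ← h.sum', ← per_add h.ne'] at hij
    have := h.inj' (sub_left_inj.1 hij); omega

abbrev GPN (v : Pt) (N : ℕ) : Type :=
  {q : List Pt × List Pt // Good v q.1 q.2 ∧ q.1.length + q.2.length + 2 = 2 * N}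

theorem two_le {v : Pt} {N : ℕ} (q : GPN v N) : 2 ≤ N := by
  have h1 := List.length_pos_iff.2 q.2.1.ne
  have h2 := List.length_pos_iff.2 q.2.1.ne'
  have := q.2.2
  omega

/-- the rooted polygon of a good pair -/
def toF {v : Pt} {N : ℕ} (q : GPN v N) (z : ZMod (2 * N)) : Pt := vert q.1.1 q.1.2 z.val

theorem toF_zero {v : Pt} {N : ℕ} (q : GPN v N) : toF q 0 = 0 := by
  unfold toF
  rw [ZMod.val_zero, vert_zero]

theorem toF_inj {v : Pt} {N : ℕ} (q : GPN v N) : Function.Injective (toF q) := by
  have : NeZero (2 * N) := ⟨by have := two_le q; omega⟩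
  intro a b hab
  exact ZMod.val_injective _ (vert_inj q.2.1 hab)

theorem neg_one_val {N : ℕ} (hN : 1 ≤ N) : (-1 : ZMod (2 * N)).val = 2 * N - 1 := by
  obtain ⟨k, hk⟩ : ∃ k, 2 * N = k + 1 := ⟨2 * N - 1, by omega⟩
  rw [hk]
  simpa using ZMod.val_neg_one k

theorem toF_neg_one {v : Pt} {N : ℕ} (q : GPN v N) : toF q (-1) = -(0, 1) := by
  have h2 := two_le q
  unfold toF
  rw [neg_one_val (by omega), ← vert_last q.2.1]
  congr 1
  have := q.2.2
  omega

theorem toF_step {v : Pt} {N : ℕ} (q : GPN v N) (z : ZMod (2 * N)) :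
    Un (toF q (z + 1) - toF q z) := by
  have h2 := two_le q
  have : NeZero (2 * N) := ⟨by omega⟩
  have : Fact (1 < 2 * N) := ⟨by omega⟩
  have hlt := ZMod.val_lt z
  have hlen := q.2.2
  by_cases h : z.val + 1 < 2 * N
  · have e : (z + 1).val = z.val + 1 := by
      rw [ZMod.val_add_of_lt (by rw [ZMod.val_one]; exact h), ZMod.val_one]
    unfold toF
    rw [e]
    exact vert_step q.2.1 (by omega)
  · have e : z = -1 := by
      refine ZMod.val_injective _ ?_
      rw [neg_one_val (by omega)]
      omega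
    rw [e, neg_add_cancel, toF_zero, toF_neg_one]
    simp [Un]

theorem toF_shift {v : Pt} {N : ℕ} (q : GPN v N) {z z' : ZMod (2 * N)}
    (h : toF q z + v = toF q z') : toF q z = 0 ∨ toF q z = -(0, 1) := by
  have h2 := two_le q
  have : NeZero (2 * N) := ⟨by omega⟩
  have hlen := q.2.2
  rcases vert_shift q.2.1 (by have := ZMod.val_lt z; omega) (by have := ZMod.val_lt z'; omega) h
    with h1 | h1
  · left
    unfold toF; rw [h1, vert_zero]
  · right
    unfold toF; rw [h1, vert_last q.2.1]

theorem toF_reach {v : Pt} {N : ℕ} (q : GPN v N) : ∃ z, toF q z = v := by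
  have h2 := two_le q
  have hlen := q.2.2
  refine ⟨(q.1.1.length : ZMod (2 * N)), ?_⟩
  unfold toF
  rw [ZMod.val_natCast_of_lt (by omega), vert_len q.2.1]

theorem toF_reach' {v : Pt} {N : ℕ} (q : GPN v N) : ∃ z, toF q z = v - (0, 1) := by
  have h2 := two_le q
  have hlen := q.2.2
  have hm := List.length_pos_iff.2 q.2.1.ne'
  refine ⟨((q.1.1.length + 1 : ℕ) : ZMod (2 * N)), ?_⟩
  unfold toF
  rw [ZMod.val_natCast_of_lt (by omega)]
  unfold vert
  rw [if_neg (by omega), show (q.1.1.length : ℤ) + q.1.2.length + 1 - ((q.1.1.length + 1 : ℕ) : ℤ)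
    = q.1.2.length by push_cast; ring, per_nat le_rfl q.2.1.ne', pos_len, q.2.1.sum']

theorem eq_of_pos {a b : List Pt} (hl : a.length = b.length)
    (h : ∀ i ≤ a.length, pos a i = pos b i) : a = b := by
  apply List.ext_getElem hl
  intro i h1 h2
  have e1 := pos_succ a h1
  have e2 := pos_succ b h2
  rw [h (i + 1) h1, h i h1.le, e2] at e1
  exact (add_left_cancel e1).symm

theorem toF_recover {v : Pt} {N : ℕ} {q q' : GPN v N} (h : toF q = toF q') : q = q' := by
  have h2 := two_le q
  have : NeZero (2 * N) := ⟨by omega⟩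
  have hlen := q.2.2
  have hlen' := q'.2.2
  have hval : ∀ i < 2 * N, vert q.1.1 q.1.2 i = vert q'.1.1 q'.1.2 i := by
    intro i hi
    have := congrFun h (i : ZMod (2 * N))
    unfold toF at this
    rwa [ZMod.val_natCast_of_lt hi] at this
  have hn : q.1.1.length = q'.1.1.length := by
    have e1 := vert_len q.2.1
    have e2 := vert_len q'.2.1
    exact vert_inj q'.2.1 ((hval _ (by omega)).symm.trans (e1.trans e2.symm))
  have hm : q.1.2.length = q'.1.2.length := by omega
  have e1 : q.1.1 = q'.1.1 := by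
    refine eq_of_pos hn (fun i hi => ?_)
    have := hval i (by omega)
    unfold vert at this
    rw [if_pos hi, if_pos (by omega), per_nat hi q.2.1.ne, per_nat (by omega) q'.2.1.ne] at this
    exact this
  have e2 : q.1.2 = q'.1.2 := by
    refine eq_of_pos hm (fun i hi => ?_)
    have := hval (q.1.1.length + q.1.2.length + 1 - i) (by omega)
    unfold vert at this
    rw [if_neg (by omega), if_neg (by omega)] at this
    have c1 : (q.1.1.length : ℤ) + q.1.2.length + 1 -
        ((q.1.1.length + q.1.2.length + 1 - i : ℕ) : ℤ) = (i : ℤ) := by omega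
    have c2 : (q'.1.1.length : ℤ) + q'.1.2.length + 1 -
        ((q.1.1.length + q.1.2.length + 1 - i : ℕ) : ℤ) = (i : ℤ) := by omega
    rw [c1, c2, per_nat hi q.2.1.ne', per_nat (by omega) q'.2.1.ne'] at this
    exact sub_left_inj.1 this
  exact Subtype.ext (Prod.ext e1 e2)

/-- signs -/
def sg {M : ℕ} (b : Bool) : ZMod M := if b then 1 else -1

theorem sg_mul_self {M : ℕ} (b : Bool) : (sg b : ZMod M) * sg b = 1 := by
  cases b <;> simp [sg]

theorem sg_cases {M : ℕ} (b : Bool) : (sg b : ZMod M) = 1 ∨ (sg b : ZMod M) = -1 := by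
  cases b <;> simp [sg]

theorem toF_step' {v : Pt} {N : ℕ} (q : GPN v N) (z : ZMod (2 * N)) (b : Bool) :
    Un (toF q (z + sg b) - toF q z) := by
  cases b
  · have := (toF_step q (z - 1)).neg
    rw [sub_add_cancel] at this
    simp only [sg]
    rw [if_neg (by simp), ← sub_eq_add_neg]
    convert this using 1
    abel
  · simpa [sg] using toF_step q z

/-- rerooted and reoriented polygon -/
def toP {v : Pt} {N : ℕ} (t : GPN v N × ZMod (2 * N) × Bool) : PolyFun N :=
  ⟨fun i => toF t.1 (t.2.1 + sg t.2.2 * i) - toF t.1 t.2.1, by simp, by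
    refine ⟨?_, ?_⟩
    · intro i j hij
      have h1 := toF_inj t.1 (sub_left_inj.1 hij)
      have h2 := add_left_cancel h1
      have h3 := congrArg (fun w => sg t.2.2 * w) h2
      simp only [← mul_assoc, sg_mul_self, one_mul] at h3
      exact h3
    · intro i
      have := toF_step' t.1 (t.2.1 + sg t.2.2 * i) t.2.2
      unfold Un at this
      simp only [Prod.fst_sub, Prod.snd_sub] at this
      simp only [mul_add, mul_one, ← add_assoc, Prod.fst_sub, Prod.snd_sub,
        sub_sub_sub_cancel_right]
      exact this⟩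

theorem toP_inj {v : Pt} {N : ℕ} : Function.Injective (toP (v := v) (N := N)) := by
  rintro ⟨q1, r1, b1⟩ ⟨q2, r2, b2⟩ h
  have hN := two_le q1
  have : NeZero (2 * N) := ⟨by omega⟩
  have h0 : ∀ i, toF q1 (r1 + sg b1 * i) - toF q1 r1 = toF q2 (r2 + sg b2 * i) - toF q2 r2 := by
    intro i
    have := congrArg (fun t : PolyFun N => t.1 i) h
    exact this
  set c : Pt := toF q1 r1 - toF q2 r2 with hc
  set σ : ZMod (2 * N) := sg b2 * sg b1 with hσ
  have hj : ∀ j, toF q1 j = toF q2 (r2 + σ * (j - r1)) + c := by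
    intro j
    have := h0 (sg b1 * (j - r1))
    rw [← mul_assoc, sg_mul_self, one_mul, add_sub_cancel, ← mul_assoc] at this
    rw [hc, ← sub_add_cancel (toF q1 j) (toF q1 r1), this, hσ]
    abel
  have hσ2 : σ * σ = 1 := by
    rw [hσ]
    calc sg b2 * sg b1 * (sg b2 * sg b1) = (sg b2 * sg b2) * (sg b1 * sg b1) := by ring
      _ = (1 : ZMod (2 * N)) := by rw [sg_mul_self, sg_mul_self, one_mul]
  set z0 := r2 + σ * (0 - r1) with hz0
  set z1 := r2 + σ * (-1 - r1) with hz1
  have e0 : toF q2 z0 = -c := by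
    have := hj 0
    rw [toF_zero] at this
    exact (neg_eq_of_add_eq_zero_left this.symm).symm
  have e1 : toF q2 z1 = -(0, 1) - c := by
    have := hj (-1)
    rw [toF_neg_one] at this
    exact (sub_eq_of_eq_add this).symm
  have s0 : toF q2 z0 = 0 ∨ toF q2 z0 = -(0, 1) := by
    obtain ⟨z, hz⟩ := toF_reach q1
    refine toF_shift q2 (z' := r2 + σ * (z - r1)) ?_
    have := hj z
    rw [hz] at this
    rw [e0]
    exact (congrArg (fun w => -c + w) this).trans (by abel)
  have s1 : toF q2 z1 = 0 ∨ toF q2 z1 = -(0, 1) := by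
    obtain ⟨z, hz⟩ := toF_reach' q1
    refine toF_shift q2 (z' := r2 + σ * (z - r1)) ?_
    have := hj z
    rw [hz] at this
    rw [e1]
    exact (show -((0 : ℤ), (1 : ℤ)) - c + v = v - (0, 1) - c by abel).trans
      ((congrArg (fun w => w - c) this).trans (by abel))
  have hc0 : c = 0 := by
    rcases s0 with s0 | s0
    · rw [e0] at s0; exact neg_eq_zero.1 s0
    · exfalso
      rw [e0, neg_inj] at s0
      rw [e1, s0] at s1
      rcases s1 with s1 | s1
      · have := congrArg Prod.snd s1
        simp at this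
      · have := congrArg Prod.snd s1
        simp at this
  rw [hc0, neg_zero, ← toF_zero q2] at e0
  rw [hc0, sub_zero, ← toF_neg_one q2] at e1
  have z0e := toF_inj q2 e0
  have z1e := toF_inj q2 e1
  have hσ1 : σ = 1 := by
    have : z1 = z0 - σ := by rw [hz0, hz1]; ring
    rw [z0e, z1e, zero_sub, neg_inj] at this
    exact this.symm
  have hb : b1 = b2 := by
    have h2 : (sg b1 : ZMod (2 * N)) = sg b2 := by
      calc (sg b1 : ZMod (2 * N)) = sg b2 * sg b2 * sg b1 := by rw [sg_mul_self, one_mul]
        _ = sg b2 * σ := by rw [hσ]; ring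
        _ = sg b2 := by rw [hσ1, mul_one]
    have h3 : (1 : ZMod (2 * N)) ≠ -1 := by
      intro h4
      have : Fact (1 < 2 * N) := ⟨by omega⟩
      have h5 := congrArg ZMod.val h4
      rw [neg_one_val (by omega), ZMod.val_one] at h5
      omega
    cases b1 <;> cases b2 <;> simp [sg] at h2 ⊢
    · exact h3 h2.symm
    · exact h3 h2
  have hr : r1 = r2 := by
    rw [hz0, hσ1] at z0e
    have : r2 - r1 = 0 := by rw [← z0e]; ring
    exact (sub_eq_zero.1 this).symm
  have hF : toF q1 = toF q2 := by
    funext j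
    rw [hj j, hc0, add_zero, hσ1, hr]
    congr 1
    ring
  rw [toF_recover hF, hr, hb]

end Pool.Agent.Work.MP_376faf_co_lower
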