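import Pool.Agent.Work.MP_376faf_co_lower.Walks

/-! Renewal structure of bridges. -/

set_option autoImplicit false

namespace Pool.Agent.Work.MP_376faf_co_lower

open scoped ENNReal

/-- i is a cut index of l -/
def Cut (l : List Pt) (i : ℕ) : Prop := (∀ j ≤ i, (pos l j).1 ≤ (pos l i).1) ∧
  ∀ j, i < j → j ≤ l.length → (pos l i).1 < (pos l j).1

theorem Bridge.nonneg {l : List Pt} (h : Bridge l) {i : ℕ} (hi : i ≤ l.length) :
    0 ≤ (pos l i).1 := by
  rcases Nat.eq_zero_or_pos i with h0 | h0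
  · rw [h0]; simp
  · exact (h.2 i h0 hi).1.le

theorem Bridge.le_end {l : List Pt} (h : Bridge l) {i : ℕ} (hi : i ≤ l.length) :
    (pos l i).1 ≤ (pos l l.length).1 := by
  rcases Nat.eq_zero_or_pos i with h0 | h0
  · rw [h0]; simpa using h.nonneg le_rfl
  · exact (h.2 i h0 hi).2

theorem bridge_append {a b : List Pt} (ha : Bridge a) (hb : Bridge b) : Bridge (a ++ b) := by
  have hR : ∀ i, pos (a ++ b) (a.length + i) = a.sum + pos b i := pos_append_right a b
  have hs : a.sum = pos a a.length := (pos_len a).symm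
  refine ⟨⟨?_, ?_⟩, ?_⟩
  · intro s hs
    rcases List.mem_append.1 hs with h | h
    · exact ha.1.1 s h
    · exact hb.1.1 s h
  · intro i hi j hj hij
    simp only [Set.mem_Iic, List.length_append] at hi hj
    rcases le_total i a.length with h1 | h1 <;> rcases le_total j a.length with h2 | h2
    · rw [pos_append_left _ _ h1, pos_append_left _ _ h2] at hij
      exact ha.1.2 h1 h2 hij
    · obtain ⟨j', rfl⟩ := Nat.exists_eq_add_of_le h2
      rw [pos_append_left _ _ h1, hR] at hij
      rcases Nat.eq_zero_or_pos j' with h0 | h0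
      · subst h0
        rw [pos_zero, add_zero, hs] at hij
        have := ha.1.2 h1 (le_refl a.length) hij
        omega
      · have h3 := ha.le_end h1
        have h4 := (hb.2 j' h0 (by omega)).1
        rw [hij, hs] at h3
        simp only [Prod.fst_add] at h3
        omega
    · obtain ⟨i', rfl⟩ := Nat.exists_eq_add_of_le h1
      rw [pos_append_left _ _ h2, hR] at hij
      rcases Nat.eq_zero_or_pos i' with h0 | h0
      · subst h0
        rw [pos_zero, add_zero, hs] at hij
        have := ha.1.2 (le_refl a.length) h2 hij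
        omega
      · have h3 := ha.le_end h2
        have h4 := (hb.2 i' h0 (by omega)).1
        rw [← hij, hs] at h3
        simp only [Prod.fst_add] at h3
        omega
    · obtain ⟨i', rfl⟩ := Nat.exists_eq_add_of_le h1
      obtain ⟨j', rfl⟩ := Nat.exists_eq_add_of_le h2
      rw [hR, hR] at hij
      have := hb.1.2 (show i' ∈ Set.Iic b.length by simp only [Set.mem_Iic]; omega)
        (show j' ∈ Set.Iic b.length by simp only [Set.mem_Iic]; omega) (add_left_cancel hij)
      omega
  · intro i h0 hi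
    rw [List.length_append] at hi
    rw [List.length_append, hR, hs]
    have hb0 := hb.nonneg (le_refl b.length)
    rcases le_total i a.length with h1 | h1
    · rw [pos_append_left _ _ h1]
      have := ha.2 i h0 h1
      simp only [Prod.fst_add]
      omega
    · obtain ⟨i', rfl⟩ := Nat.exists_eq_add_of_le h1
      rw [hR, hs]
      have ha0 := ha.nonneg (le_refl a.length)
      simp only [Prod.fst_add]
      rcases Nat.eq_zero_or_pos i' with h2 | h2
      · subst h2
        have := (ha.2 a.length (by omega) le_rfl).1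
        simp only [pos_zero, Prod.fst_zero]
        omega
      · have := hb.2 i' h2 (by omega)
        omega

theorem Bridge.take {l : List Pt} (h : Bridge l) {i : ℕ} (hi : i ≤ l.length)
    (hc : ∀ j ≤ i, (pos l j).1 ≤ (pos l i).1) : Bridge (l.take i) := by
  refine ⟨h.1.take i, fun j h0 hj => ?_⟩
  rw [List.length_take, min_eq_left hi] at hj ⊢
  rw [pos_take _ hj, pos_take _ le_rfl]
  exact ⟨(h.2 j h0 (by omega)).1, hc j hj⟩

theorem Bridge.drop {l : List Pt} (h : Bridge l) {i : ℕ} (hi : i ≤ l.length)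
    (hc : ∀ j, i < j → j ≤ l.length → (pos l i).1 < (pos l j).1) : Bridge (l.drop i) := by
  refine ⟨h.1.drop hi, fun j h0 hj => ?_⟩
  rw [List.length_drop] at hj ⊢
  rw [pos_drop _ hi, pos_drop _ hi]
  have h1 := hc (i + j) (by omega) (by omega)
  have h2 := (h.2 (i + j) (by omega) (by omega)).2
  have h3 : i + (l.length - i) = l.length := by omega
  rw [h3]
  simp only [Prod.fst_sub]
  omega

theorem bridge_rotate {l : List Pt} (h : Bridge l) {i : ℕ} (hi : i < l.length) :
    Bridge (l.rotate i) ↔ Cut l i := by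
  rw [List.rotate_eq_drop_append_take hi.le]
  constructor
  · intro hb
    have hlen : (l.drop i ++ l.take i).length = l.length := by simp; omega
    have hld : (l.drop i).length = l.length - i := by simp
    have hsum : (l.drop i).sum = pos l l.length - pos l i := by
      have := pos_drop l hi.le (l.length - i)
      rw [pos_ge _ (by simp), Nat.add_sub_cancel' hi.le] at this
      exact this
    have hend : (pos (l.drop i ++ l.take i) (l.drop i ++ l.take i).length).1 =
        (pos l l.length).1 := by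
      rw [pos_len, List.sum_append, hsum]
      have : (l.take i).sum = pos l i := rfl
      rw [this]; simp
    refine ⟨fun j hj => ?_, fun j h1 h2 => ?_⟩
    · have h3 := hb.le_end (i := (l.drop i).length + j) (by rw [hlen, hld]; omega)
      rw [pos_append_right, hend, hsum, pos_take _ hj] at h3
      simp only [Prod.fst_add, Prod.fst_sub] at h3
      omega
    · have h3 := (hb.2 (j - i) (by omega) (by rw [hlen]; omega)).1
      rw [pos_append_left _ _ (by rw [hld]; omega), pos_drop _ hi.le] at h3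
      simp only [Prod.fst_sub] at h3
      rw [show i + (j - i) = j by omega] at h3
      omega
  · intro hc
    exact bridge_append (h.drop hi.le hc.2) (h.take hi.le hc.1)

open Classical in
/-- rotations which are bridges -/
noncomputable def Ren (l : List Pt) : Finset ℕ :=
  (Finset.range l.length).filter (fun i => Bridge (l.rotate i))

noncomputable def rr (l : List Pt) : ℕ := (Ren l).card

theorem mem_Ren {l : List Pt} {i : ℕ} : i ∈ Ren l ↔ i < l.length ∧ Bridge (l.rotate i) := by
  classical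
  simp [Ren]

theorem mem_Ren' {l : List Pt} (h : Bridge l) {i : ℕ} : i ∈ Ren l ↔ i < l.length ∧ Cut l i := by
  rw [mem_Ren]
  constructor
  · rintro ⟨h1, h2⟩; exact ⟨h1, (bridge_rotate h h1).1 h2⟩
  · rintro ⟨h1, h2⟩; exact ⟨h1, (bridge_rotate h h1).2 h2⟩

theorem zero_mem_Ren {l : List Pt} (h : Bridge l) (h0 : l ≠ []) : 0 ∈ Ren l := by
  rw [mem_Ren]
  exact ⟨List.length_pos_iff.2 h0, by simpa using h⟩

theorem rr_pos {l : List Pt} (h : Bridge l) (h0 : l ≠ []) : 1 ≤ rr l :=
  Finset.card_pos.2 ⟨0, zero_mem_Ren h h0⟩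

theorem cut_append_left {a b : List Pt} (ha : Bridge a) (hb : Bridge b) {i : ℕ}
    (hi : i < a.length) : Cut (a ++ b) i ↔ Cut a i := by
  unfold Cut
  rw [pos_append_left _ _ hi.le]
  constructor
  · rintro ⟨h1, h2⟩
    refine ⟨fun j hj => ?_, fun j h3 h4 => ?_⟩
    · have := h1 j hj
      rwa [pos_append_left _ _ (by omega)] at this
    · have := h2 j h3 (by rw [List.length_append]; omega)
      rwa [pos_append_left _ _ h4] at this
  · rintro ⟨h1, h2⟩
    refine ⟨fun j hj => ?_, fun j h3 h4 => ?_⟩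
    · rw [pos_append_left _ _ (by omega)]
      exact h1 j hj
    · rcases le_total j a.length with h5 | h5
      · rw [pos_append_left _ _ h5]
        exact h2 j h3 h5
      · obtain ⟨j', rfl⟩ := Nat.exists_eq_add_of_le h5
        rw [pos_append_right, ← pos_len]
        rw [List.length_append] at h4
        have h6 := h2 a.length hi le_rfl
        have h7 := hb.nonneg (i := j') (by omega)
        simp only [Prod.fst_add]
        omega

theorem cut_append_right {a b : List Pt} (ha : Bridge a) (hb : Bridge b) {i : ℕ}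
    (hi : i < b.length) : Cut (a ++ b) (a.length + i) ↔ Cut b i := by
  unfold Cut
  rw [pos_append_right]
  constructor
  · rintro ⟨h1, h2⟩
    refine ⟨fun j hj => ?_, fun j h3 h4 => ?_⟩
    · have := h1 (a.length + j) (by omega)
      rw [pos_append_right] at this
      simp only [Prod.fst_add] at this
      omega
    · have := h2 (a.length + j) (by omega) (by rw [List.length_append]; omega)
      rw [pos_append_right] at this
      simp only [Prod.fst_add] at this
      omega
  · rintro ⟨h1, h2⟩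
    refine ⟨fun j hj => ?_, fun j h3 h4 => ?_⟩
    · rcases le_total j a.length with h5 | h5
      · rw [pos_append_left _ _ h5, ← pos_len]
        have h6 := ha.le_end h5
        have h7 := hb.nonneg hi.le
        simp only [Prod.fst_add]
        omega
      · obtain ⟨j', rfl⟩ := Nat.exists_eq_add_of_le h5
        rw [pos_append_right]
        have := h1 j' (by omega)
        simp only [Prod.fst_add]
        omega
    · obtain ⟨j', rfl⟩ := Nat.exists_eq_add_of_le (show a.length ≤ j by omega)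
      rw [List.length_append] at h4
      rw [pos_append_right]
      have := h2 j' (by omega) (by omega)
      simp only [Prod.fst_add]
      omega

theorem rr_append {a b : List Pt} (ha : Bridge a) (hb : Bridge b) :
    rr (a ++ b) = rr a + rr b := by
  classical
  have hab := bridge_append ha hb
  have h : Ren (a ++ b) = (Ren a) ∪ (Ren b).map (addLeftEmbedding a.length) := by
    ext i
    rw [Finset.mem_union, mem_Ren' hab, Finset.mem_map, mem_Ren' ha, List.length_append]
    simp only [addLeftEmbedding_apply]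
    constructor
    · rintro ⟨h1, h2⟩
      rcases lt_or_ge i a.length with h3 | h3
      · exact Or.inl ⟨h3, (cut_append_left ha hb h3).1 h2⟩
      · obtain ⟨j, rfl⟩ := Nat.exists_eq_add_of_le h3
        exact Or.inr ⟨j, (mem_Ren' hb).2 ⟨by omega, (cut_append_right ha hb (by omega)).1 h2⟩, rfl⟩
    · rintro (⟨h1, h2⟩ | ⟨j, h1, rfl⟩)
      · exact ⟨by omega, (cut_append_left ha hb h1).2 h2⟩
      · rw [mem_Ren' hb] at h1
        exact ⟨by omega, (cut_append_right ha hb h1.1).2 h1.2⟩
  unfold rr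
  rw [h, Finset.card_union_of_disjoint, Finset.card_map]
  rw [Finset.disjoint_left]
  intro i h1 h2
  rw [mem_Ren] at h1
  rw [Finset.mem_map] at h2
  obtain ⟨j, -, rfl⟩ := h2
  simp only [addLeftEmbedding_apply] at h1
  omega

theorem bridge_decomp {l : List Pt} (h : Bridge l) (h2 : 2 ≤ rr l) : ∃ j, 0 < j ∧ j < l.length ∧
    Bridge (l.take j) ∧ Bridge (l.drop j) ∧ rr (l.take j) = 1 := by
  classical
  have h0 : l ≠ [] := by
    rintro rfl
    simp [rr, Ren] at h2
  have hne : ((Ren l).erase 0).Nonempty := by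
    rw [← Finset.card_pos, Finset.card_erase_of_mem (zero_mem_Ren h h0)]
    unfold rr at h2
    omega
  obtain ⟨j, hj, hmin⟩ := Finset.exists_min_image _ id hne
  rw [Finset.mem_erase, mem_Ren' h] at hj
  obtain ⟨hj0, hjl, hc⟩ := hj
  have ht := h.take hjl.le hc.1
  have hd := h.drop hjl.le hc.2
  have hlt : (l.take j).length = j := by simp [hjl.le]
  refine ⟨j, by omega, hjl, ht, hd, ?_⟩
  unfold rr
  rw [Finset.card_eq_one]
  refine ⟨0, ?_⟩
  ext i
  rw [Finset.mem_singleton]
  constructor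
  · intro hi
    rw [mem_Ren' ht, hlt] at hi
    by_contra hi0
    have : Cut l i := by
      have := (cut_append_left ht hd (by rw [hlt]; exact hi.1)).2 hi.2
      rwa [List.take_append_drop] at this
    have := hmin i (by rw [Finset.mem_erase, mem_Ren' h]; exact ⟨hi0, by omega, this⟩)
    simp only [id] at this
    omega
  · rintro rfl
    exact zero_mem_Ren ht (by
      intro h3
      rw [h3] at hlt
      simp at hlt
      omega)

theorem irr_unique {a b a' b' : List Pt} (ha : Bridge a) (hb : Bridge b) (ha' : Bridge a')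
    (hb' : Bridge b') (hb0 : b ≠ []) (hb0' : b' ≠ []) (h1 : rr a = 1) (h1' : rr a' = 1)
    (h : a ++ b = a' ++ b') : a = a' ∧ b = b' := by
  have hlen : ∀ {a b a' b' : List Pt}, Bridge a → Bridge b → Bridge a' → Bridge b' → b ≠ [] →
      rr a = 1 → rr a' = 1 → a ++ b = a' ++ b' → ¬ a.length < a'.length := by
    intro a b a' b' ha hb ha' hb' hb0 h1 h1' h hlt
    have ha0 : a ≠ [] := by
      rintro rfl
      simp [rr, Ren] at h1
    have hc : Cut (a ++ b) (a.length + 0) := (cut_append_right ha hb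
      (List.length_pos_iff.2 hb0)).2 ((mem_Ren' hb).1 (zero_mem_Ren hb hb0)).2
    rw [add_zero, h] at hc
    have hc' := (cut_append_left ha' hb' hlt).1 hc
    have m1 : a.length ∈ Ren a' := (mem_Ren' ha').2 ⟨hlt, hc'⟩
    have m2 : 0 ∈ Ren a' := zero_mem_Ren ha' (by
      rintro rfl
      simp at hlt)
    unfold rr at h1'
    rw [Finset.card_eq_one] at h1'
    obtain ⟨z, hz⟩ := h1'
    rw [hz, Finset.mem_singleton] at m1 m2
    exact ha0 (List.length_eq_zero_iff.1 (by omega))
  have h2 := hlen ha hb ha' hb' hb0 h1 h1' h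
  have h3 := hlen ha' hb' ha hb hb0' h1' h1 h.symm
  exact List.append_inj h (by omega)

/-- nonempty bridges with given number of cut indices -/
def BR (k : ℕ) (l : List Pt) : Prop := Bridge l ∧ l ≠ [] ∧ rr l = k

theorem R_le (x : ℝ≥0∞) (k : ℕ) : mass x (BR (k + 2)) ≤ mass x (BR 1) * mass x (BR (k + 1)) := by
  choose j hj0 hjl ht hd h1 using fun l : {l // BR (k + 2) l} =>
    bridge_decomp l.2.1 (by have := l.2.2.2; omega)
  unfold mass
  rw [← tsum_mul]
  have hr : ∀ l : {l // BR (k + 2) l}, rr (l.1.drop (j l)) = k + 1 := by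
    intro l
    have := rr_append (ht l) (hd l)
    rw [List.take_append_drop, h1, l.2.2.2] at this
    omega
  have hn : ∀ l : {l // BR (k + 2) l}, l.1.drop (j l) ≠ [] := by
    intro l h
    have := hr l
    rw [h] at this
    simp [rr, Ren] at this
  have hn' : ∀ l : {l // BR (k + 2) l}, l.1.take (j l) ≠ [] := by
    intro l h
    have := h1 l
    rw [h] at this
    simp [rr, Ren] at this
  refine tsum_le_inj (fun l : {l // BR (k + 2) l} =>
    ((⟨l.1.take (j l), ht l, hn' l, h1 l⟩, ⟨l.1.drop (j l), hd l, hn l, hr l⟩) :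
      {l // BR 1 l} × {l // BR (k + 1) l})) ?_ ?_
  · intro a b hab
    simp only [Prod.mk.injEq, Subtype.mk.injEq] at hab
    apply Subtype.ext
    rw [← List.take_append_drop (j a) a.1, ← List.take_append_drop (j b) b.1, hab.1, hab.2]
  · intro a
    have := hjl a
    simp only [List.length_take, List.length_drop]
    rw [← pow_add]
    apply le_of_eq
    congr 1
    omega

theorem R_ge (x : ℝ≥0∞) (k : ℕ) : mass x (BR 1) * mass x (BR (k + 1)) ≤ mass x (BR (k + 2)) := by
  unfold mass
  rw [← tsum_mul]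
  refine tsum_le_inj (fun p : {l // BR 1 l} × {l // BR (k + 1) l} =>
    (⟨p.1.1 ++ p.2.1, bridge_append p.1.2.1 p.2.2.1, by simp [p.1.2.2.1], by
      rw [rr_append p.1.2.1 p.2.2.1, p.1.2.2.2, p.2.2.2.2]; ring⟩ : {l // BR (k + 2) l})) ?_ ?_
  · intro p q hpq
    have h := congrArg (fun t : {l // BR (k + 2) l} => t.1) hpq
    simp only at h
    obtain ⟨e1, e2⟩ := irr_unique p.1.2.1 p.2.2.1 q.1.2.1 q.2.2.1 p.2.2.2.1 q.2.2.2.1
      p.1.2.2.2 q.1.2.2.2 h
    exact Prod.ext (Subtype.ext e1) (Subtype.ext e2)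
  · intro p
    simp only [List.length_append]
    rw [pow_add]

theorem sigma_le {ι : Type*} {x : ℝ≥0∞} (P : ι → List Pt → Prop) (Q : List Pt → Prop)
    (h : ∀ i l, P i l → Q l) (hd : ∀ i j l, P i l → P j l → i = j) (w : List Pt → ℝ≥0∞) :
    ∑' i, ∑' l : {l // P i l}, w l.1 ≤ ∑' l : {l // Q l}, w l.1 := by
  rw [← ENNReal.tsum_sigma' (f := fun p : Σ i, {l // P i l} => w p.2.1)]
  refine tsum_le_inj (fun p : Σ i, {l // P i l} => (⟨p.2.1, h p.1 p.2.1 p.2.2⟩ : {l // Q l})) ?_
    (fun _ => le_rfl)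
  rintro ⟨i, l, hl⟩ ⟨j, m, hm⟩ hab
  have h1 := congrArg (fun t : {l // Q l} => t.1) hab
  simp only at h1
  subst h1
  obtain rfl := hd i j l hl hm
  rfl

theorem sigma_ge {ι : Type*} (P : ι → List Pt → Prop) (Q : List Pt → Prop)
    (h : ∀ l, Q l → ∃ i, P i l) (w : List Pt → ℝ≥0∞) :
    ∑' l : {l // Q l}, w l.1 ≤ ∑' i, ∑' l : {l // P i l}, w l.1 := by
  rw [← ENNReal.tsum_sigma' (f := fun p : Σ i, {l // P i l} => w p.2.1)]
  choose i hi using fun l : {l // Q l} => h l.1 l.2
  refine tsum_le_inj (fun l : {l // Q l} => (⟨i l, l.1, hi l⟩ : Σ i, {l // P i l})) ?_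
    (fun _ => le_rfl)
  intro a b hab
  have h1 := congrArg (fun t : Σ i, {l // P i l} => t.2.1) hab
  exact Subtype.ext h1

theorem bridge_top {x : ℝ≥0∞} (h : mass x Half = ⊤) :
    ∑' l : {l // Bridge l ∧ l ≠ []}, x ^ l.1.length = ⊤ := by
  rw [← top_le_iff, ← half_top_bridge h]
  unfold mass
  refine sigma_le (x := x) (fun j : ℕ => BridgeW (j + 1)) (fun l => Bridge l ∧ l ≠ []) ?_ ?_
    (fun l => x ^ l.length)
  · rintro i l ⟨h1, h2⟩
    refine ⟨h1, ?_⟩
    rintro rfl
    simp at h2
    omega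
  · rintro i j l ⟨-, h1⟩ ⟨-, h2⟩
    rw [h1] at h2
    push_cast at h2
    omega

theorem R_pow_le (x : ℝ≥0∞) (k : ℕ) : mass x (BR (k + 1)) ≤ mass x (BR 1) ^ (k + 1) := by
  induction k with
  | zero => simp
  | succ k ih =>
    refine (R_le x k).trans ?_
    rw [pow_succ' _ (k + 1)]
    exact mul_le_mul_right ih _

theorem R_pow_ge (x : ℝ≥0∞) (k : ℕ) : mass x (BR 1) ^ (k + 1) ≤ mass x (BR (k + 1)) := by
  induction k with
  | zero => simp
  | succ k ih =>
    refine le_trans ?_ (R_ge x k)
    rw [pow_succ' _ (k + 1)]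
    exact mul_le_mul_right ih _

theorem R_one {x : ℝ≥0∞} (h : mass x Half = ⊤) : 1 ≤ mass x (BR 1) := by
  by_contra hlt
  push Not at hlt
  have h1 := bridge_top h
  have h2 : ∑' l : {l // Bridge l ∧ l ≠ []}, x ^ l.1.length ≤ ∑' k : ℕ, mass x (BR (k + 1)) := by
    unfold mass
    refine sigma_ge (fun k : ℕ => BR (k + 1)) (fun l => Bridge l ∧ l ≠ []) ?_ (fun l => x ^ l.length)
    rintro l ⟨h3, h4⟩
    have := rr_pos h3 h4
    exact ⟨rr l - 1, h3, h4, by omega⟩
  have h3 : ∑' k : ℕ, mass x (BR (k + 1)) ≤ ∑' k : ℕ, mass x (BR 1) ^ k := by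
    refine ENNReal.tsum_le_tsum (fun k => (R_pow_le x k).trans ?_)
    rw [pow_succ]
    exact mul_le_of_le_one_right' hlt.le
  rw [h1] at h2
  have h4 := top_le_iff.1 (h2.trans h3)
  rw [ENNReal.tsum_geometric] at h4
  have h5 : (1 : ℝ≥0∞) - mass x (BR 1) = 0 := by simpa using h4
  rw [tsub_eq_zero_iff_le] at h5
  exact absurd h5 (not_le.2 hlt)

/-- the sum over bridges weighted by the inverse number of cut indices diverges -/
theorem weighted_top {x : ℝ≥0∞} (h : mass x Half = ⊤) :
    ∑' l : {l // Bridge l ∧ l ≠ []}, x ^ l.1.length * ((rr l.1 : ℕ) : ℝ≥0∞)⁻¹ = ⊤ := by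
  rw [← top_le_iff]
  have h1 : ∑' k : ℕ, ∑' l : {l // BR (k + 1) l}, x ^ l.1.length * ((rr l.1 : ℕ) : ℝ≥0∞)⁻¹ ≤
      ∑' l : {l // Bridge l ∧ l ≠ []}, x ^ l.1.length * ((rr l.1 : ℕ) : ℝ≥0∞)⁻¹ := by
    refine sigma_le (x := x) (fun k : ℕ => BR (k + 1)) (fun l => Bridge l ∧ l ≠ []) ?_ ?_
      (fun l => x ^ l.length * ((rr l : ℕ) : ℝ≥0∞)⁻¹)
    · rintro i l ⟨h2, h3, -⟩; exact ⟨h2, h3⟩
    · rintro i j l ⟨-, -, h2⟩ ⟨-, -, h3⟩; omega
  refine le_trans ?_ h1
  have h2 : ∀ k : ℕ, ((k + 1 : ℕ) : ℝ≥0∞)⁻¹ ≤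
      ∑' l : {l // BR (k + 1) l}, x ^ l.1.length * ((rr l.1 : ℕ) : ℝ≥0∞)⁻¹ := by
    intro k
    have h3 : ∑' l : {l // BR (k + 1) l}, x ^ l.1.length * ((rr l.1 : ℕ) : ℝ≥0∞)⁻¹ =
        mass x (BR (k + 1)) * ((k + 1 : ℕ) : ℝ≥0∞)⁻¹ := by
      unfold mass
      rw [← ENNReal.tsum_mul_right]
      refine tsum_congr (fun l => ?_)
      rw [l.2.2.2]
    rw [h3]
    have h4 : (1 : ℝ≥0∞) ≤ mass x (BR (k + 1)) :=
      (one_le_pow₀ (R_one h)).trans (R_pow_ge x k)
    calc ((k + 1 : ℕ) : ℝ≥0∞)⁻¹ = 1 * ((k + 1 : ℕ) : ℝ≥0∞)⁻¹ := (one_mul _).symm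
      _ ≤ _ := mul_le_mul_left h4 _
  refine le_trans ?_ (ENNReal.tsum_le_tsum h2)
  rw [top_le_iff]
  by_contra hne
  have h3 : Summable (fun k : ℕ => (((k + 1 : ℕ) : ℝ≥0∞)⁻¹).toReal) := ENNReal.summable_toReal hne
  have h4 : (fun k : ℕ => (((k + 1 : ℕ) : ℝ≥0∞)⁻¹).toReal) = fun k : ℕ => 1 / ((k : ℝ) + 1) := by
    funext k
    rw [ENNReal.toReal_inv, ENNReal.toReal_natCast]
    push_cast
    rw [one_div]
  rw [h4] at h3
  have h5 := (summable_nat_add_iff (f := fun n : ℕ => 1 / (n : ℝ)) 1).1 (by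
    refine h3.congr (fun k => ?_)
    push_cast
    rfl)
  exact Real.not_summable_one_div_natCast h5

end Pool.Agent.Work.MP_376faf_co_lower
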