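import Pool.Agent.Work.MP_376faf_co_lower.PolyMap

/-! The lower bound for the tail of the critical polygon series. -/

set_option autoImplicit false

namespace Pool.Agent.Work.MP_376faf_co_lower

open Filter Topology
open scoped ENNReal

theorem poly_box {n : ℕ} (f : PolyFun n) (k : ℕ) :
    |(f.1 (k : ZMod (2*n))).1| ≤ k ∧ |(f.1 (k : ZMod (2*n))).2| ≤ k := by
  induction k with
  | zero => simp [f.2.1]
  | succ k ih =>
    have h : Un (f.1 ((k : ZMod (2*n)) + 1) - f.1 (k : ZMod (2*n))) := f.2.2.2 _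
    have h := h.bounds
    simp only [Prod.fst_sub, Prod.snd_sub] at h
    push_cast
    obtain ⟨h1, h2⟩ := ih
    rw [abs_le] at h1 h2
    constructor
    · rw [abs_le]; constructor <;> omega
    · rw [abs_le]; constructor <;> omega

theorem polyFinite {n : ℕ} (hn : 1 ≤ n) : Finite (PolyFun n) := by
  have : NeZero (2 * n) := ⟨by omega⟩
  have hfin : (Set.pi Set.univ (fun _ : ZMod (2*n) =>
      (Set.Icc ((-(2*n:ℤ), -(2*n:ℤ)) : ℤ × ℤ) ((2*n:ℤ), (2*n:ℤ))))).Finite :=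
    Set.Finite.pi (fun _ => Set.finite_Icc _ _)
  refine (hfin.subset (t := {f : ZMod (2*n) → ℤ × ℤ | f 0 = 0 ∧ Function.Injective f ∧
  ∀ i : ZMod (2*n), |(f (i+1)).1 - (f i).1| + |(f (i+1)).2 - (f i).2| = 1}) ?_).to_subtype
  intro f hf i _
  have := poly_box ⟨f, hf⟩ i.val
  rw [ZMod.natCast_zmod_val i] at this
  have hi : (i.val : ℤ) < 2 * n := by have := ZMod.val_lt i; exact_mod_cast this
  rw [abs_le, abs_le] at this
  simp only [Set.mem_Icc, Prod.le_def] at this ⊢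
  omega

/-- the normalised number of polygons -/
noncomputable def aN (μ : ℝ) (N : ℕ) : ℝ := (Nat.card (PolyFun N) : ℝ) / (4 * (N:ℝ)) / μ ^ (2*N)

theorem GPN_le {μ : ℝ} (hμ : 1 ≤ μ) (v : Pt) {N : ℕ} (hN : 1 ≤ N) :
    ∑' _ : GPN v N, (ENNReal.ofReal μ)⁻¹ ^ (2 * N) ≤ ENNReal.ofReal (aN μ N) := by
  have hμ0 : 0 < μ := by linarith
  have : NeZero (2 * N) := ⟨by omega⟩
  have := polyFinite hN
  have : Fintype (PolyFun N) := Fintype.ofFinite _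
  set c : ℝ≥0∞ := (ENNReal.ofReal μ)⁻¹ ^ (2 * N) with hc
  set d : ℝ≥0∞ := c * (((4 * N : ℕ) : ℝ≥0∞))⁻¹ with hd
  have h4 : (((4 * N : ℕ) : ℝ≥0∞)) ≠ 0 := by
    rw [Nat.cast_ne_zero]; omega
  have h4' : (((4 * N : ℕ) : ℝ≥0∞)) ≠ ⊤ := ENNReal.natCast_ne_top _
  have h1 : ∀ _q : GPN v N, c = ∑' _ : ZMod (2 * N) × Bool, d := by
    intro q
    rw [tsum_fintype, Finset.sum_const, Finset.card_univ, Fintype.card_prod, ZMod.card,
      Fintype.card_bool, nsmul_eq_mul, hd]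
    rw [show (((2 * N * 2 : ℕ) : ℝ≥0∞)) = ((4 * N : ℕ) : ℝ≥0∞) by congr 1; ring]
    rw [mul_comm, mul_assoc, ENNReal.inv_mul_cancel h4 h4', mul_one]
  have h2 : ∑' _ : GPN v N, c = ∑' _ : GPN v N × ZMod (2 * N) × Bool, d := by
    rw [ENNReal.tsum_prod' (f := fun _ : GPN v N × ZMod (2 * N) × Bool => d)]
    exact tsum_congr h1
  rw [h2]
  have h3 : ∑' _ : GPN v N × ZMod (2 * N) × Bool, d ≤ ∑' _ : PolyFun N, d :=
    tsum_le_inj toP toP_inj (fun _ => le_rfl)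
  refine h3.trans ?_
  rw [tsum_fintype, Finset.sum_const, Finset.card_univ, nsmul_eq_mul, ← Nat.card_eq_fintype_card]
  apply le_of_eq
  unfold aN
  have hN0 : (0:ℝ) < N := by exact_mod_cast hN
  rw [ENNReal.ofReal_div_of_pos (by positivity), ENNReal.ofReal_div_of_pos (by positivity),
    ENNReal.ofReal_natCast, ENNReal.ofReal_pow hμ0.le, hd, hc, ← ENNReal.inv_pow, div_eq_mul_inv,
    div_eq_mul_inv]
  rw [show ENNReal.ofReal (4 * (N:ℝ)) = ((4 * N : ℕ) : ℝ≥0∞) by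
    rw [← ENNReal.ofReal_natCast]; push_cast; rfl]
  ring

theorem sum_parity (L : List Pt) (h : ∀ s ∈ L, Un s) :
    (L.sum.1 + L.sum.2 - L.length) % 2 = 0 ∧ |L.sum.1| + |L.sum.2| ≤ L.length := by
  induction L with
  | nil => simp
  | cons a L ih =>
    obtain ⟨i1, i2⟩ := ih (fun s hs => h s (List.mem_cons_of_mem _ hs))
    have ha := h a (List.mem_cons_self)
    unfold Un at ha
    simp only [List.sum_cons, Prod.fst_add, Prod.snd_add, List.length_cons]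
    push_cast
    constructor
    · rcases abs_cases a.1 with ⟨h1, h2⟩ | ⟨h1, h2⟩ <;> rcases abs_cases a.2 with ⟨h3, h4⟩ | ⟨h3, h4⟩ <;>
        omega
    · have h1 := abs_add_le a.1 L.sum.1
      have h2 := abs_add_le a.2 L.sum.2
      omega

/-- tail of the critical polygon series -/
noncomputable def TT (μ : ℝ) (S : ℕ) : ℝ≥0∞ := ∑' n : ℕ, ENNReal.ofReal (aN μ (n + S))

theorem TT_anti (μ : ℝ) {S S' : ℕ} (h : S ≤ S') : TT μ S' ≤ TT μ S := by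
  obtain ⟨d, rfl⟩ := Nat.exists_eq_add_of_le h
  unfold TT
  refine tsum_le_inj (fun n => n + d) (fun a b hab => by simpa using hab) (fun n => ?_)
  rw [show n + (S + d) = n + d + S by ring]

theorem tail_ge {μ : ℝ} (hμ : 1 ≤ μ) {v : Pt} (hv : 0 < v.1) :
    (v.1.toNat : ℝ≥0∞) * (Wt (ENNReal.ofReal μ)⁻¹ v * Wt (ENNReal.ofReal μ)⁻¹ v) *
      ((ENNReal.ofReal μ)⁻¹ * (ENNReal.ofReal μ)⁻¹) ≤ TT μ (v.1.natAbs + v.2.natAbs + 1) := by
  set x : ℝ≥0∞ := (ENNReal.ofReal μ)⁻¹ with hx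
  set S := v.1.natAbs + v.2.natAbs + 1 with hS
  have h1 : (v.1.toNat : ℝ≥0∞) * (Wt x v * Wt x v) * (x * x) ≤
      ∑' q : GP v, x ^ (q.1.1.length + q.1.2.length + 2) := by
    refine (mul_le_mul' (good_count x hv) le_rfl).trans (le_of_eq ?_)
    rw [← ENNReal.tsum_mul_right]
    refine tsum_congr (fun q => ?_)
    rw [pow_add _ _ 2]
    ring
  refine h1.trans ?_
  have hex : ∀ q : GP v, ∃ n : ℕ, q.1.1.length + q.1.2.length + 2 = 2 * (n + S) := by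
    intro q
    have p1 := sum_parity q.1.1 q.2.un
    have p2 := sum_parity q.1.2 q.2.un'
    rw [q.2.sum] at p1
    rw [q.2.sum'] at p2
    refine ⟨(q.1.1.length + q.1.2.length + 2) / 2 - S, ?_⟩
    have a1 : |v.1| = (v.1.natAbs : ℤ) := Int.abs_eq_natAbs _
    have a2 : |v.2| = (v.2.natAbs : ℤ) := Int.abs_eq_natAbs _
    omega
  choose n hn using hex
  calc ∑' q : GP v, x ^ (q.1.1.length + q.1.2.length + 2)
      ≤ ∑' t : Σ n : ℕ, GPN v (n + S), x ^ (2 * (t.1 + S)) := by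
        refine tsum_le_inj (fun q : GP v => (⟨n q, ⟨q.1, q.2, hn q⟩⟩ : Σ n : ℕ, GPN v (n + S)))
          ?_ ?_
        · intro a b hab
          have := congrArg (fun t : Σ n : ℕ, GPN v (n + S) => t.2.1) hab
          exact Subtype.ext this
        · intro q
          simp only
          rw [hn q]
    _ = ∑' n : ℕ, ∑' _ : GPN v (n + S), x ^ (2 * (n + S)) := by
        rw [ENNReal.tsum_sigma' (f := fun t : Σ n : ℕ, GPN v (n + S) => x ^ (2 * (t.1 + S)))]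
    _ ≤ TT μ S := ENNReal.tsum_le_tsum (fun n => GPN_le hμ v (by omega))

/-- square root -/
noncomputable def rt (a : ℝ≥0∞) : ℝ≥0∞ := a ^ (1 / 2 : ℝ)

theorem rt_mono {a b : ℝ≥0∞} (h : a ≤ b) : rt a ≤ rt b :=
  ENNReal.rpow_le_rpow h (by norm_num)

theorem rt_mul (a b : ℝ≥0∞) : rt (a * b) = rt a * rt b :=
  ENNReal.mul_rpow_of_nonneg _ _ (by norm_num)

theorem rt_sq (a : ℝ≥0∞) : rt (a * a) = a := by
  rw [rt_mul]
  unfold rt
  rw [← ENNReal.rpow_add_of_nonneg _ _ (by norm_num) (by norm_num)]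
  norm_num

theorem rt_ofReal {a : ℝ} (ha : 0 ≤ a) : rt (ENNReal.ofReal a) = ENNReal.ofReal (√a) := by
  unfold rt
  rw [ENNReal.ofReal_rpow_of_nonneg ha (by norm_num), Real.sqrt_eq_rpow]

theorem rt_nat (k : ℕ) : rt (k : ℝ≥0∞) = ENNReal.ofReal (√(k:ℝ)) := by
  rw [← ENNReal.ofReal_natCast, rt_ofReal (Nat.cast_nonneg k)]

theorem sum_inv_sqrt (s : ℕ) : ∑ k ∈ Finset.range (s + 1), 1 / √((k:ℝ) + 1) ≤ 2 * √((s:ℝ) + 1) := by
  induction s with
  | zero => simp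
  | succ s ih =>
    rw [Finset.sum_range_succ]
    have h1 : 0 < √((s:ℝ) + 1) := Real.sqrt_pos.2 (by positivity)
    have h2 : 0 < √(((s + 1 : ℕ):ℝ) + 1) := Real.sqrt_pos.2 (by positivity)
    have e1 : √((s:ℝ) + 1) ^ 2 = (s:ℝ) + 1 := Real.sq_sqrt (by positivity)
    have e2 : √(((s + 1 : ℕ):ℝ) + 1) ^ 2 = ((s + 1 : ℕ):ℝ) + 1 := Real.sq_sqrt (by positivity)
    set p := √((s:ℝ) + 1)
    set q := √(((s + 1 : ℕ):ℝ) + 1)
    push_cast at e2
    have h3 : 1 / q ≤ 2 * q - 2 * p := by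
      rw [div_le_iff₀ h2]
      nlinarith [sq_nonneg (q - p)]
    linarith

theorem sum_inv_rt (s : ℕ) : ∑ k ∈ Finset.range (s + 1), (rt ((k + 1 : ℕ) : ℝ≥0∞))⁻¹ ≤
    2 * rt ((s + 1 : ℕ) : ℝ≥0∞) := by
  have h1 : ∀ k : ℕ, (rt ((k + 1 : ℕ) : ℝ≥0∞))⁻¹ = ENNReal.ofReal (1 / √((k:ℝ) + 1)) := by
    intro k
    rw [rt_nat, ← ENNReal.ofReal_inv_of_pos (Real.sqrt_pos.2 (by positivity)), one_div]
    push_cast
    rfl
  simp only [h1]
  rw [← ENNReal.ofReal_sum_of_nonneg (fun _ _ => by positivity), rt_nat]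
  calc ENNReal.ofReal (∑ k ∈ Finset.range (s + 1), 1 / √((k:ℝ) + 1))
      ≤ ENNReal.ofReal (2 * √((s:ℝ) + 1)) := ENNReal.ofReal_le_ofReal (sum_inv_sqrt s)
    _ = _ := by
        rw [ENNReal.ofReal_mul (by norm_num)]
        push_cast
        norm_num

theorem tsum_int_le (f : ℕ → ℝ≥0∞) : ∑' b : ℤ, f b.natAbs ≤ 2 * ∑' j : ℕ, f j := by
  have h1 : ∑' b : ℤ, f b.natAbs ≤ ∑' t : Bool × ℕ, f t.2 := by
    refine tsum_le_inj (fun b : ℤ => (decide (0 ≤ b), b.natAbs)) ?_ (fun _ => le_rfl)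
    intro a b hab
    simp only [Prod.mk.injEq, decide_eq_decide] at hab
    obtain ⟨h1, h2⟩ := hab
    omega
  refine h1.trans (le_of_eq ?_)
  rw [ENNReal.tsum_prod' (f := fun t : Bool × ℕ => f t.2)]
  simp only
  rw [tsum_fintype]
  simp only [Fintype.univ_bool, Finset.sum_const]
  norm_num

theorem tsum_antidiag (F : ℕ × ℕ → ℝ≥0∞) :
    ∑' p : ℕ × ℕ, F p ≤ ∑' n : ℕ, ∑ k ∈ Finset.range (n + 1), F (k, n - k) := by
  calc ∑' p : ℕ × ℕ, F p ≤ ∑' t : Σ n : ℕ, Fin (n + 1), F (t.2.val, t.1 - t.2.val) := by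
        refine tsum_le_inj (fun p : ℕ × ℕ =>
          (⟨p.1 + p.2, ⟨p.1, by omega⟩⟩ : Σ n : ℕ, Fin (n + 1))) ?_ ?_
        · rintro ⟨a, b⟩ ⟨c, d⟩ hab
          have h1 := congrArg (fun t : Σ n : ℕ, Fin (n + 1) => t.1) hab
          have h2 := congrArg (fun t : Σ n : ℕ, Fin (n + 1) => t.2.val) hab
          simp only at h1 h2
          ext
          · simp only; omega
          · simp only; omega
        · rintro ⟨a, b⟩
          simp
    _ = ∑' n : ℕ, ∑ k ∈ Finset.range (n + 1), F (k, n - k) := by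
        rw [ENNReal.tsum_sigma' (f := fun t : Σ n : ℕ, Fin (n + 1) => F (t.2.val, t.1 - t.2.val))]
        refine tsum_congr (fun n => ?_)
        rw [tsum_fintype, Finset.sum_range]

theorem main_tail {μ : ℝ} (hμ : 1 ≤ μ) (h : ∀ n : ℕ, μ ^ n ≤ (Nat.card (WalkFun n) : ℝ)) :
    ∑' N : ℕ, rt ((N : ℝ≥0∞) * TT μ N) = ⊤ := by
  have hμ0 : 0 < μ := by linarith
  set x : ℝ≥0∞ := (ENNReal.ofReal μ)⁻¹ with hx
  have hx0 : x ≠ 0 := by simp [hx]
  have hxt : x ≠ ⊤ := by simp [hx, hμ0]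
  have hW := tsum_Wt (mass_half_top hμ h)
  rw [← hx] at hW
  -- pointwise bound
  have hpt : ∀ (k : ℕ) (b : ℤ), Wt x ((k : ℤ) + 1, b) ≤
      x⁻¹ * ((rt ((k + 1 : ℕ) : ℝ≥0∞))⁻¹ * rt (TT μ (k + b.natAbs + 2))) := by
    intro k b
    have hv : 0 < (((k : ℤ) + 1, b) : Pt).1 := by simp only; omega
    have h1 := rt_mono (tail_ge hμ hv)
    rw [← hx, rt_mul, rt_mul, rt_sq, rt_sq] at h1
    simp only at h1
    rw [show ((k : ℤ) + 1).toNat = k + 1 by omega, show ((k : ℤ) + 1).natAbs + b.natAbs + 1 =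
      k + b.natAbs + 2 by omega] at h1
    set r := rt ((k + 1 : ℕ) : ℝ≥0∞) with hr
    have hk0 : r ≠ 0 := by
      rw [hr, rt_nat]
      simp only [ne_eq, ENNReal.ofReal_eq_zero, not_le]
      exact Real.sqrt_pos.2 (by positivity)
    have hkt : r ≠ ⊤ := by
      rw [hr, rt_nat]
      exact ENNReal.ofReal_ne_top
    calc Wt x ((k : ℤ) + 1, b) = x⁻¹ * (r⁻¹ * (r * Wt x ((k : ℤ) + 1, b) * x)) := by
          calc Wt x ((k : ℤ) + 1, b) = (x⁻¹ * x) * ((r⁻¹ * r) * Wt x ((k : ℤ) + 1, b)) := by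
                rw [ENNReal.inv_mul_cancel hx0 hxt, ENNReal.inv_mul_cancel hk0 hkt, one_mul,
                  one_mul]
            _ = _ := by ring
      _ ≤ _ := mul_le_mul' le_rfl (mul_le_mul' le_rfl h1)
  have hsup : ∑' p : ℕ × ℤ, Wt x ((p.1 : ℤ) + 1, p.2) = ∑' v, Wt x v := by
    refine Function.Injective.tsum_eq (g := fun p : ℕ × ℤ => (((p.1 : ℤ) + 1, p.2) : Pt)) ?_ ?_
    · rintro ⟨a, b⟩ ⟨c, d⟩ hab
      simp only [Prod.mk.injEq] at hab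
      ext
      · simp only; omega
      · exact hab.2
    · intro v hv
      have : 0 < v.1 := by
        by_contra hn
        exact hv (Wt_zero (by omega))
      exact ⟨(v.1.toNat - 1, v.2), by
        ext
        · simp only; omega
        · rfl⟩
  have h2 : (⊤ : ℝ≥0∞) ≤ x⁻¹ * (2 * (2 * ∑' N : ℕ, rt ((N : ℝ≥0∞) * TT μ N))) := by
    calc (⊤ : ℝ≥0∞) = ∑' p : ℕ × ℤ, Wt x ((p.1 : ℤ) + 1, p.2) := by rw [hsup, hW]
      _ ≤ ∑' p : ℕ × ℤ, x⁻¹ * ((rt ((p.1 + 1 : ℕ) : ℝ≥0∞))⁻¹ * rt (TT μ (p.1 + p.2.natAbs + 2))) :=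
          ENNReal.tsum_le_tsum (fun p => hpt p.1 p.2)
      _ = x⁻¹ * ∑' k : ℕ, (rt ((k + 1 : ℕ) : ℝ≥0∞))⁻¹ * ∑' b : ℤ, rt (TT μ (k + b.natAbs + 2)) := by
          rw [ENNReal.tsum_mul_left, ENNReal.tsum_prod' (f := fun p : ℕ × ℤ =>
            (rt ((p.1 + 1 : ℕ) : ℝ≥0∞))⁻¹ * rt (TT μ (p.1 + p.2.natAbs + 2)))]
          simp only [ENNReal.tsum_mul_left]
      _ ≤ x⁻¹ * ∑' k : ℕ, (rt ((k + 1 : ℕ) : ℝ≥0∞))⁻¹ * (2 * ∑' j : ℕ, rt (TT μ (k + j + 2))) := by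
          refine mul_le_mul' le_rfl (ENNReal.tsum_le_tsum (fun k => mul_le_mul' le_rfl ?_))
          exact tsum_int_le (fun j => rt (TT μ (k + j + 2)))
      _ = x⁻¹ * (2 * ∑' p : ℕ × ℕ, (rt ((p.1 + 1 : ℕ) : ℝ≥0∞))⁻¹ * rt (TT μ (p.1 + p.2 + 2))) := by
          rw [ENNReal.tsum_prod' (f := fun p : ℕ × ℕ =>
            (rt ((p.1 + 1 : ℕ) : ℝ≥0∞))⁻¹ * rt (TT μ (p.1 + p.2 + 2)))]
          simp only [ENNReal.tsum_mul_left]
          congr 1
          rw [← ENNReal.tsum_mul_left]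
          refine tsum_congr (fun k => ?_)
          ring
      _ ≤ x⁻¹ * (2 * ∑' n : ℕ, ∑ k ∈ Finset.range (n + 1),
            (rt ((k + 1 : ℕ) : ℝ≥0∞))⁻¹ * rt (TT μ (k + (n - k) + 2))) :=
          mul_le_mul' le_rfl (mul_le_mul' le_rfl (tsum_antidiag (fun p : ℕ × ℕ =>
            (rt ((p.1 + 1 : ℕ) : ℝ≥0∞))⁻¹ * rt (TT μ (p.1 + p.2 + 2)))))
      _ ≤ x⁻¹ * (2 * ∑' n : ℕ, 2 * rt (((n + 1 : ℕ) : ℝ≥0∞) * TT μ (n + 1))) := by
          refine mul_le_mul' le_rfl (mul_le_mul' le_rfl (ENNReal.tsum_le_tsum (fun n => ?_)))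
          have e1 : ∑ k ∈ Finset.range (n + 1),
              (rt ((k + 1 : ℕ) : ℝ≥0∞))⁻¹ * rt (TT μ (k + (n - k) + 2)) =
              (∑ k ∈ Finset.range (n + 1), (rt ((k + 1 : ℕ) : ℝ≥0∞))⁻¹) * rt (TT μ (n + 2)) := by
            rw [Finset.sum_mul]
            refine Finset.sum_congr rfl (fun k hk => ?_)
            rw [Finset.mem_range] at hk
            rw [show k + (n - k) + 2 = n + 2 by omega]
          rw [e1, rt_mul, ← mul_assoc]
          exact mul_le_mul' (sum_inv_rt n) (rt_mono (TT_anti μ (by omega)))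
      _ ≤ x⁻¹ * (2 * (2 * ∑' N : ℕ, rt ((N : ℝ≥0∞) * TT μ N))) := by
          rw [ENNReal.tsum_mul_left]
          refine mul_le_mul' le_rfl (mul_le_mul' le_rfl (mul_le_mul' le_rfl ?_))
          exact tsum_le_inj (fun n => n + 1) (fun a b hab => by simpa using hab) (fun _ => le_rfl)
  by_contra hne
  have h3 : x⁻¹ * (2 * (2 * ∑' N : ℕ, rt ((N : ℝ≥0∞) * TT μ N))) ≠ ⊤ := by
    refine ENNReal.mul_ne_top (ENNReal.inv_ne_top.2 hx0) (ENNReal.mul_ne_top (by norm_num)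
      (ENNReal.mul_ne_top (by norm_num) hne))
  exact h3 (top_le_iff.1 h2)

end Pool.Agent.Work.MP_376faf_co_lower
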