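import Mathlib

/-! Walks as lists of unit steps; bridges and half-plane walks; the Hammersley-Welsh argument. -/

set_option autoImplicit false

namespace Pool.Agent.Work.MP_376faf_co_lower

open scoped ENNReal

abbrev Pt := ℤ × ℤ

/-- unit vectors -/
def Un (s : Pt) : Prop := |s.1| + |s.2| = 1

/-- position after i steps -/
def pos (l : List Pt) (i : ℕ) : Pt := (l.take i).sum

@[simp] theorem pos_zero (l : List Pt) : pos l 0 = 0 := by simp [pos]

theorem pos_len (l : List Pt) : pos l l.length = l.sum := by simp [pos]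

theorem pos_ge (l : List Pt) {i : ℕ} (h : l.length ≤ i) : pos l i = l.sum := by
  simp [pos, List.take_of_length_le h]

theorem pos_take (l : List Pt) {i j : ℕ} (h : i ≤ j) : pos (l.take j) i = pos l i := by
  simp [pos, List.take_take, min_eq_left h]

theorem pos_append_left (a b : List Pt) {i : ℕ} (h : i ≤ a.length) : pos (a ++ b) i = pos a i := by
  simp [pos, List.take_append_of_le_length h]

theorem pos_append_right (a b : List Pt) (i : ℕ) :
    pos (a ++ b) (a.length + i) = a.sum + pos b i := by
  simp [pos, List.take_length_add_append]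

theorem pos_drop (l : List Pt) {j : ℕ} (hj : j ≤ l.length) (i : ℕ) :
    pos (l.drop j) i = pos l (j + i) - pos l j := by
  have h := pos_append_right (l.take j) (l.drop j) i
  rw [List.take_append_drop, List.length_take, min_eq_left hj] at h
  rw [h]
  simp [pos]

theorem pos_succ (l : List Pt) {i : ℕ} (h : i < l.length) : pos l (i + 1) = pos l i + l[i] := by
  unfold pos
  rw [List.take_add_one, List.getElem?_eq_getElem h, List.sum_append]
  simp

/-- self-avoiding walks -/
def Walk (l : List Pt) : Prop := (∀ s ∈ l, Un s) ∧ Set.InjOn (pos l) (Set.Iic l.length)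

/-- half-plane walks -/
def Half (l : List Pt) : Prop := Walk l ∧ ∀ i, 0 < i → i ≤ l.length → 0 < (pos l i).1

/-- bridges (including the empty one) -/
def Bridge (l : List Pt) : Prop := Walk l ∧ ∀ i, 0 < i → i ≤ l.length →
  0 < (pos l i).1 ∧ (pos l i).1 ≤ (pos l l.length).1

theorem Bridge.half {l : List Pt} (h : Bridge l) : Half l := ⟨h.1, fun i h0 h1 => (h.2 i h0 h1).1⟩

theorem Walk.take {l : List Pt} (h : Walk l) (j : ℕ) : Walk (l.take j) := by
  refine ⟨fun s hs => h.1 s (List.mem_of_mem_take hs), ?_⟩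
  intro a ha b hb hab
  simp only [Set.mem_Iic, List.length_take, le_min_iff] at ha hb
  rw [pos_take _ ha.1, pos_take _ hb.1] at hab
  exact h.2 ha.2 hb.2 hab

theorem Walk.drop {l : List Pt} (h : Walk l) {j : ℕ} (hj : j ≤ l.length) : Walk (l.drop j) := by
  refine ⟨fun s hs => h.1 s (List.mem_of_mem_drop hs), ?_⟩
  intro a ha b hb hab
  simp only [Set.mem_Iic, List.length_drop] at ha hb
  rw [pos_drop _ hj, pos_drop _ hj] at hab
  have := h.2 (show j + a ∈ Set.Iic l.length by simp only [Set.mem_Iic]; omega)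
    (show j + b ∈ Set.Iic l.length by simp only [Set.mem_Iic]; omega) (sub_left_inj.1 hab)
  omega

/-- reflection in a vertical line -/
def fl (s : Pt) : Pt := (-s.1, s.2)

theorem fl_fl (s : Pt) : fl (fl s) = s := by simp [fl]

theorem fl_inj : Function.Injective fl := fun a b h => by
  rw [← fl_fl a, h, fl_fl]

theorem pos_flip (l : List Pt) (i : ℕ) : pos (l.map fl) i = fl (pos l i) := by
  unfold pos
  rw [← List.map_take]
  generalize l.take i = m
  induction m with
  | nil => simp [fl]; rfl
  | cons a m ih => simp only [List.map_cons, List.sum_cons, ih]; simp [fl]; ring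

theorem Walk.flip {l : List Pt} (h : Walk l) : Walk (l.map fl) := by
  refine ⟨?_, ?_⟩
  · intro s hs
    obtain ⟨t, ht, rfl⟩ := List.mem_map.1 hs
    have := h.1 t ht
    simpa [Un, fl] using this
  · intro a ha b hb hab
    simp only [Set.mem_Iic, List.length_map] at ha hb
    rw [pos_flip, pos_flip] at hab
    exact h.2 ha hb (fl_inj hab)

/-- reversed walk -/
def rv (l : List Pt) : List Pt := (l.map (fun s => -s)).reverse

@[simp] theorem rv_length (l : List Pt) : (rv l).length = l.length := by simp [rv]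

theorem rv_inj : Function.Injective rv := by
  intro a b h
  unfold rv at h
  have h := List.reverse_injective h
  exact List.map_injective_iff.2 neg_injective h

theorem sum_map_neg (l : List Pt) : (l.map (fun s => -s)).sum = -l.sum := by
  induction l with
  | nil => simp
  | cons a l ih => simp only [List.map_cons, List.sum_cons, ih]; abel

theorem pos_rv (l : List Pt) {i : ℕ} (_h : i ≤ l.length) :
    pos (rv l) i = pos l (l.length - i) - pos l l.length := by
  unfold pos rv
  rw [List.take_reverse, List.sum_reverse, List.length_map, ← List.map_drop, sum_map_neg]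
  have : l.sum = (l.take (l.length - i)).sum + (l.drop (l.length - i)).sum := by
    rw [← List.sum_append, List.take_append_drop]
  rw [List.take_length, this]
  abel

theorem Walk.rv {l : List Pt} (h : Walk l) : Walk (rv l) := by
  refine ⟨?_, ?_⟩
  · intro s hs
    unfold MP_376faf_co_lower.rv at hs
    rw [List.mem_reverse] at hs
    obtain ⟨t, ht, rfl⟩ := List.mem_map.1 hs
    have := h.1 t ht
    simpa [Un] using this
  · intro a ha b hb hab
    simp only [Set.mem_Iic, rv_length] at ha hb
    rw [pos_rv l ha, pos_rv l hb] at hab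
    have := h.2 (show l.length - a ∈ Set.Iic l.length by simp only [Set.mem_Iic]; omega)
      (show l.length - b ∈ Set.Iic l.length by simp only [Set.mem_Iic]; omega) (sub_left_inj.1 hab)
    omega

/-- the last minimum of an integer sequence -/
theorem last_min (g : ℕ → ℤ) (n : ℕ) : ∃ j ≤ n, (∀ i ≤ n, g j ≤ g i) ∧
    ∀ i, j < i → i ≤ n → g j < g i := by
  induction n with
  | zero => exact ⟨0, le_rfl, fun i hi => by rw [Nat.le_zero.1 hi], fun i h1 h2 => by omega⟩
  | succ n ih =>
    obtain ⟨j, hj, h1, h2⟩ := ih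
    by_cases h : g (n + 1) ≤ g j
    · refine ⟨n + 1, le_rfl, fun i hi => ?_, fun i h1 h2 => by omega⟩
      rcases Nat.le_succ_iff.1 hi with h3 | h3
      · exact h.trans (h1 i h3)
      · rw [h3]
    · push Not at h
      refine ⟨j, by omega, fun i hi => ?_, fun i h3 h4 => ?_⟩
      · rcases Nat.le_succ_iff.1 hi with h5 | h5
        · exact h1 i h5
        · rw [h5]; exact h.le
      · rcases Nat.le_succ_iff.1 h4 with h5 | h5
        · exact h2 i h3 h5
        · rw [h5]; exact h

theorem last_max (g : ℕ → ℤ) (n : ℕ) : ∃ j ≤ n, (∀ i ≤ n, g i ≤ g j) ∧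
    ∀ i, j < i → i ≤ n → g i < g j := by
  obtain ⟨j, hj, h1, h2⟩ := last_min (fun i => - g i) n
  exact ⟨j, hj, fun i hi => by have := h1 i hi; omega, fun i h3 h4 => by have := h2 i h3 h4; omega⟩

theorem tsum_le_inj {A B : Type*} (f : A → B) (hf : Function.Injective f) {w : A → ℝ≥0∞}
    {w' : B → ℝ≥0∞} (h : ∀ a, w a ≤ w' (f a)) : ∑' a, w a ≤ ∑' b, w' b :=
  (ENNReal.tsum_le_tsum h).trans (ENNReal.tsum_comp_le_tsum_of_injective hf w')

theorem tsum_mul {A B : Type*} (u : A → ℝ≥0∞) (w : B → ℝ≥0∞) :
    ∑' p : A × B, u p.1 * w p.2 = (∑' a, u a) * ∑' b, w b := by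
  rw [ENNReal.tsum_prod' (f := fun p : A × B => u p.1 * w p.2)]
  simp only
  rw [← ENNReal.tsum_mul_right]
  exact tsum_congr (fun a => ENNReal.tsum_mul_left)

/-- the weight of all walks with property P -/
noncomputable def mass (x : ℝ≥0∞) (P : List Pt → Prop) : ℝ≥0∞ :=
  ∑' l : {l // P l}, x ^ l.1.length

theorem mass_mono (x : ℝ≥0∞) {P Q : List Pt → Prop} (h : ∀ l, P l → Q l) :
    mass x P ≤ mass x Q :=
  tsum_le_inj (fun l : {l // P l} => (⟨l.1, h l.1 l.2⟩ : {l // Q l}))
    (fun a b hab => Subtype.ext (congrArg (fun t : {l // Q l} => t.1) hab)) (fun _ => le_rfl)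

def HalfLe (k : ℕ) (l : List Pt) : Prop := Half l ∧ ∀ i ≤ l.length, (pos l i).1 ≤ k

def BridgeW (k : ℕ) (l : List Pt) : Prop := Bridge l ∧ l.sum.1 = k

theorem half_split {k : ℕ} {l : List Pt} (h : HalfLe (k + 1) l) :
    HalfLe k l ∨ ∃ j ≤ l.length, BridgeW (k + 1) (l.take j) ∧ HalfLe k ((l.drop j).map fl) := by
  obtain ⟨j, hj, h1, h2⟩ := last_max (fun i => (pos l i).1) l.length
  by_cases hk : (pos l j).1 ≤ k
  · exact Or.inl ⟨h.1, fun i hi => (h1 i hi).trans hk⟩
  right
  have hk1 : (pos l j).1 = k + 1 := by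
    have := h.2 j hj
    push_cast at this
    omega
  refine ⟨j, hj, ⟨⟨h.1.1.take j, fun i h3 h4 => ?_⟩, ?_⟩, ⟨(h.1.1.drop hj).flip, ?_⟩, ?_⟩
  · rw [List.length_take, min_eq_left hj] at h4 ⊢
    rw [pos_take _ h4, pos_take _ le_rfl]
    exact ⟨h.1.2 i h3 (by omega), h1 i (by omega)⟩
  · have : (l.take j).sum = pos l j := rfl
    rw [this, hk1]; push_cast; rfl
  · intro i h3 h4
    simp only [List.length_map, List.length_drop] at h4
    rw [pos_flip, pos_drop _ hj]
    have := h2 (j + i) (by omega) (by omega)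
    simp only [fl, Prod.fst_sub]
    omega
  · intro i h4
    simp only [List.length_map, List.length_drop] at h4
    rw [pos_flip, pos_drop _ hj]
    simp only [fl, Prod.fst_sub, hk1]
    rcases Nat.eq_zero_or_pos (j + i) with h0 | h0
    · have hj0 : j = 0 := by omega
      rw [hj0] at hk1
      simp at hk1
      omega
    · have := h.1.2 (j + i) h0 (by omega)
      omega

theorem half_step (x : ℝ≥0∞) (k : ℕ) : mass x (HalfLe (k + 1)) ≤
    mass x (HalfLe k) + mass x (BridgeW (k + 1)) * mass x (HalfLe k) := by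
  classical
  have hch : ∀ l : {l // HalfLe (k + 1) l}, ∃ j : ℕ, ¬ HalfLe k l.1 →
      j ≤ l.1.length ∧ BridgeW (k + 1) (l.1.take j) ∧ HalfLe k ((l.1.drop j).map fl) := by
    intro l
    by_cases h : HalfLe k l.1
    · exact ⟨0, fun h' => absurd h h'⟩
    · rcases half_split l.2 with h' | ⟨j, h1, h2, h3⟩
      · exact absurd h' h
      · exact ⟨j, fun _ => ⟨h1, h2, h3⟩⟩
  choose j hj using hch
  let φ : {l // HalfLe (k + 1) l} →
      {l // HalfLe k l} ⊕ ({l // BridgeW (k + 1) l} × {l // HalfLe k l}) := fun l =>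
    if h : HalfLe k l.1 then Sum.inl ⟨l.1, h⟩
    else Sum.inr (⟨l.1.take (j l), (hj l h).2.1⟩, ⟨(l.1.drop (j l)).map fl, (hj l h).2.2⟩)
  let w : {l // HalfLe k l} ⊕ ({l // BridgeW (k + 1) l} × {l // HalfLe k l}) → ℝ≥0∞ :=
    Sum.elim (fun l => x ^ l.1.length) (fun p => x ^ p.1.1.length * x ^ p.2.1.length)
  have hw : ∑' b, w b = mass x (HalfLe k) + mass x (BridgeW (k + 1)) * mass x (HalfLe k) := by
    rw [ENNReal.summable.tsum_sum ENNReal.summable]
    simp only [w, Sum.elim_inl, Sum.elim_inr]
    rw [tsum_mul (fun a : {l // BridgeW (k + 1) l} => x ^ a.1.length)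
      (fun a : {l // HalfLe k l} => x ^ a.1.length)]
    rfl
  rw [← hw]
  refine tsum_le_inj φ ?_ ?_
  · intro a b hab
    simp only [φ] at hab
    split_ifs at hab with h1 h2 h2
    · have := congrArg (fun t : {l // HalfLe k l} => t.1) (Sum.inl.inj hab)
      exact Subtype.ext this
    · have h3 := Sum.inr.inj hab
      simp only [Prod.mk.injEq, Subtype.mk.injEq] at h3
      obtain ⟨h4, h5⟩ := h3
      have h6 := List.map_injective_iff.2 fl_inj h5
      apply Subtype.ext
      rw [← List.take_append_drop (j a) a.1, ← List.take_append_drop (j b) b.1, h4, h6]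
  · intro a
    simp only [φ, w]
    split_ifs with h1
    · simp
    · simp only [Sum.elim_inr, List.length_take, List.length_map, List.length_drop]
      have := (hj a h1).1
      rw [← pow_add, min_eq_left this, Nat.add_sub_cancel' this]

theorem half_zero (x : ℝ≥0∞) : mass x (HalfLe 0) ≤ 1 := by
  have : ∀ l, HalfLe 0 l → l = [] := by
    intro l hl
    by_contra h
    have h0 : 0 < l.length := List.length_pos_iff.2 h
    have h1 := hl.1.2 1 one_pos h0
    have h2 := hl.2 1 h0
    push_cast at h2
    omega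
  have h2 : mass x (HalfLe 0) ≤ mass x (fun l => l = []) := mass_mono x this
  refine h2.trans ?_
  unfold mass
  rw [tsum_eq_single (⟨[], rfl⟩ : {l : List Pt // (fun l => l = []) l})
    (fun b hb => absurd (Subtype.ext b.2) hb)]
  simp

theorem half_prod (x : ℝ≥0∞) (k : ℕ) : mass x (HalfLe k) ≤
    ∏ j ∈ Finset.range k, (1 + mass x (BridgeW (j + 1))) := by
  induction k with
  | zero => simpa using half_zero x
  | succ k ih =>
    rw [Finset.prod_range_succ]
    calc mass x (HalfLe (k + 1)) ≤ mass x (HalfLe k) + mass x (BridgeW (k + 1)) * mass x (HalfLe k) :=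
          half_step x k
      _ = mass x (HalfLe k) * (1 + mass x (BridgeW (k + 1))) := by ring
      _ ≤ _ := mul_le_mul_left ih _

theorem half_sup (x : ℝ≥0∞) (E : ℝ≥0∞) (h : ∀ k, mass x (HalfLe k) ≤ E) : mass x Half ≤ E := by
  classical
  unfold mass
  rw [ENNReal.tsum_eq_iSup_sum]
  refine iSup_le (fun F => ?_)
  set k : ℕ := F.sup (fun l => (Finset.range (l.1.length + 1)).sup (fun i => (pos l.1 i).1.toNat))
    with hk
  have hF : ∀ l ∈ F, HalfLe k l.1 := by
    intro l hl
    refine ⟨l.2, fun i hi => ?_⟩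
    have h1 : (pos l.1 i).1.toNat ≤
        (Finset.range (l.1.length + 1)).sup (fun i => (pos l.1 i).1.toNat) :=
      Finset.le_sup (f := fun i => (pos l.1 i).1.toNat) (Finset.mem_range.2 (by omega))
    have h2 : (Finset.range (l.1.length + 1)).sup (fun i => (pos l.1 i).1.toNat) ≤ k :=
      Finset.le_sup (f := fun l : {l // Half l} =>
        (Finset.range (l.1.length + 1)).sup (fun i => (pos l.1 i).1.toNat)) hl
    omega
  refine le_trans ?_ (h k)
  unfold mass
  rw [← Finset.sum_coe_sort, ← tsum_fintype (L := SummationFilter.unconditional _)]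
  refine tsum_le_inj (fun l : F => (⟨l.1.1, hF l.1 l.2⟩ : {l // HalfLe k l})) ?_ (fun _ => le_rfl)
  intro a b hab
  have := congrArg (fun t : {l // HalfLe k l} => t.1) hab
  exact Subtype.ext (Subtype.ext this)

theorem prod_le_exp (b : ℕ → ℝ≥0∞) (hb : ∑' j, b j ≠ ⊤) (k : ℕ) :
    ∏ j ∈ Finset.range k, (1 + b j) ≤ ENNReal.ofReal (Real.exp (∑' j, b j).toReal) := by
  have hj : ∀ j, b j ≠ ⊤ := ENNReal.ne_top_of_tsum_ne_top hb
  have h1 : ∏ j ∈ Finset.range k, (1 + b j) ≤
      ENNReal.ofReal (Real.exp (∑ j ∈ Finset.range k, (b j).toReal)) := by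
    induction k with
    | zero => simp
    | succ k ih =>
      rw [Finset.prod_range_succ, Finset.sum_range_succ, Real.exp_add,
        ENNReal.ofReal_mul (Real.exp_nonneg _)]
      refine mul_le_mul' ih ?_
      rw [← ENNReal.ofReal_toReal (hj k), ENNReal.toReal_ofReal ENNReal.toReal_nonneg]
      rw [← ENNReal.ofReal_one, ← ENNReal.ofReal_add zero_le_one ENNReal.toReal_nonneg]
      refine ENNReal.ofReal_le_ofReal ?_
      have := Real.add_one_le_exp (b k).toReal
      linarith
  refine h1.trans (ENNReal.ofReal_le_ofReal (Real.exp_le_exp.2 ?_))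
  rw [← ENNReal.toReal_sum (fun j _ => hj j)]
  exact ENNReal.toReal_mono hb (ENNReal.sum_le_tsum _)

theorem half_top_bridge {x : ℝ≥0∞} (h : mass x Half = ⊤) :
    ∑' j : ℕ, mass x (BridgeW (j + 1)) = ⊤ := by
  by_contra hb
  have := half_sup x _ (fun k => (half_prod x k).trans (prod_le_exp _ hb k))
  rw [h] at this
  exact ENNReal.ofReal_ne_top (top_le_iff.1 this)

theorem walk_split {l : List Pt} (h : Walk l) : ∃ j ≤ l.length,
    Half ((1, 0) :: rv (l.take j)) ∧ Half (l.drop j) := by
  obtain ⟨j, hj, h1, h2⟩ := last_min (fun i => (pos l i).1) l.length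
  refine ⟨j, hj, ?_, ⟨h.drop hj, fun i h3 h4 => ?_⟩⟩
  · have hlen : (rv (l.take j)).length = j := by simp [hj]
    have hp : ∀ i ≤ j, pos ((1, 0) :: rv (l.take j)) (i + 1) = (1, 0) + (pos l (j - i) - pos l j) := by
      intro i hi
      have h5 := pos_append_right [((1 : ℤ), (0 : ℤ))] (rv (l.take j)) i
      simp only [List.singleton_append, List.length_singleton, List.sum_singleton] at h5
      rw [add_comm 1 i] at h5
      rw [h5, pos_rv _ (by simp [hj, hi]), List.length_take, min_eq_left hj,
        pos_take _ (Nat.sub_le _ _), pos_take _ le_rfl]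
    have hx : ∀ i ≤ j, 0 < (pos ((1, 0) :: rv (l.take j)) (i + 1)).1 := by
      intro i hi
      rw [hp i hi]
      have := h1 (j - i) (by omega)
      simp only [Prod.fst_add, Prod.fst_sub]
      omega
    refine ⟨⟨?_, ?_⟩, ?_⟩
    · intro s hs
      rcases List.mem_cons.1 hs with rfl | hs
      · simp [Un]
      · exact (h.take j).rv.1 s hs
    · intro a ha b hb hab
      simp only [Set.mem_Iic, List.length_cons, hlen] at ha hb
      rcases Nat.eq_zero_or_pos a with ha0 | ha0
      · rcases Nat.eq_zero_or_pos b with hb0 | hb0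
        · rw [ha0, hb0]
        · exfalso
          obtain ⟨b', rfl⟩ : ∃ b', b = b' + 1 := ⟨b - 1, by omega⟩
          have := hx b' (by omega)
          rw [← hab, ha0] at this
          simp at this
      · obtain ⟨a', rfl⟩ : ∃ a', a = a' + 1 := ⟨a - 1, by omega⟩
        rcases Nat.eq_zero_or_pos b with hb0 | hb0
        · exfalso
          have := hx a' (by omega)
          rw [hab, hb0] at this
          simp at this
        · obtain ⟨b', rfl⟩ : ∃ b', b = b' + 1 := ⟨b - 1, by omega⟩
          rw [hp a' (by omega), hp b' (by omega)] at hab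
          have := h.2 (show j - a' ∈ Set.Iic l.length by simp only [Set.mem_Iic]; omega)
            (show j - b' ∈ Set.Iic l.length by simp only [Set.mem_Iic]; omega)
            (sub_left_inj.1 (add_left_cancel hab))
          omega
    · intro i h3 h4
      simp only [List.length_cons, hlen] at h4
      obtain ⟨i', rfl⟩ : ∃ i', i = i' + 1 := ⟨i - 1, by omega⟩
      exact hx i' (by omega)
  · rw [List.length_drop] at h4
    rw [pos_drop _ hj]
    have := h2 (j + i) (by omega) (by omega)
    simp only [Prod.fst_sub]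
    omega

theorem walk_le_half (x : ℝ≥0∞) : x * mass x Walk ≤ mass x Half * mass x Half := by
  choose j hj using fun l : {l // Walk l} => walk_split l.2
  unfold mass
  rw [← ENNReal.tsum_mul_left, ← tsum_mul]
  refine tsum_le_inj (fun l : {l // Walk l} =>
    ((⟨_, (hj l).2.1⟩, ⟨_, (hj l).2.2⟩) : {l // Half l} × {l // Half l})) ?_ ?_
  · intro a b hab
    simp only [Prod.mk.injEq, Subtype.mk.injEq, List.cons.injEq, true_and] at hab
    obtain ⟨h1, h2⟩ := hab
    have h1 := rv_inj h1
    apply Subtype.ext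
    rw [← List.take_append_drop (j a) a.1, ← List.take_append_drop (j b) b.1, h1, h2]
  · intro a
    have := (hj a).1
    simp only [List.length_cons, rv_length, List.length_take, List.length_drop]
    rw [← pow_add, ← pow_succ']
    apply le_of_eq
    congr 1
    omega

end Pool.Agent.Work.MP_376faf_co_lower
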